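import Mathlib

namespace Pool.Agent.Results.MP_d1698a_pr.EveryF

open MeasureTheory ProbabilityTheory Filter Topology
open scoped ENNReal NNReal

/-- An offspring distribution `μ` (a probability mass function on `ℕ`) is critical if
`∑ k μ_k = 1`; the trivial case `μ_1 = 1` is excluded. -/
def Critical (μ : PMF ℕ) : Prop := ∑' k : ℕ, (k : ℝ≥0∞) * μ k = 1 ∧ μ 1 < 1

/-- `ξ u` is the number of children of the vertex with label `u`.
`InTree ξ u`: the label `u` is a vertex of the tree: the root is, and `i :: u` is a vertex exactly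
if `u` is a vertex and `i < ξ u`. -/
def InTree (ξ : List ℕ → ℕ) : List ℕ → Prop
  | [] => True
  | i :: u => InTree ξ u ∧ i < ξ u

/-- The tree, as its set of vertices. -/
def tree (ξ : List ℕ → ℕ) : Set (List ℕ) := {u | InTree ξ u}

/-- The height: largest distance (length of the label) from the root. -/
noncomputable def height (ξ : List ℕ → ℕ) : ℕ := sSup (List.length '' tree ξ)

/-- The event that the tree has exactly `n` vertices. -/
def hasSize (n : ℕ) : Set (List ℕ → ℕ) := {ξ | (tree ξ).encard = n}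

/-- The law of the Galton-Watson tree with offspring distribution `μ`: the numbers of children
`ξ u` are independent with law `μ`. -/
noncomputable def gw (μ : PMF ℕ) : Measure (List ℕ → ℕ) :=
  Measure.infinitePi fun _ : List ℕ => μ.toMeasure

/-- The law of the conditioned tree `T_n`. -/
noncomputable def gwn (μ : PMF ℕ) (n : ℕ) : Measure (List ℕ → ℕ) := cond (gw μ) (hasSize n)

/-- The sequence `H(T_n) / (f(n) ln n)`, over the `n` with `P(|T| = n) > 0`, is tight. -/
def HeightTight (μ : PMF ℕ) (f : ℕ → ℝ) : Prop :=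
  ∀ ε : ℝ≥0∞, 0 < ε → ∃ K : ℝ, ∀ n : ℕ, 1 ≤ n → gw μ (hasSize n) ≠ 0 →
    gwn μ n {ξ | K < |(height ξ : ℝ) / (f n * Real.log n)|} < ε

/-- `H(T_n) / (f(n) ln n) → 0` in probability, along the `n` with `P(|T| = n) > 0`. -/
def HeightSmall (μ : PMF ℕ) (f : ℕ → ℝ) : Prop :=
  ∀ δ : ℝ, 0 < δ → Tendsto
    (fun n => gwn μ n {ξ | δ < |(height ξ : ℝ) / (f n * Real.log n)|})
    (atTop ⊓ 𝓟 {n | gw μ (hasSize n) ≠ 0}) (𝓝 0)

instance (μ : PMF ℕ) : IsProbabilityMeasure (gw μ) := by
  unfold gw; infer_instance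

/-- sanity check: the law of `T_n` is a probability measure when `P(|T| = n) > 0` -/
lemma gwn_prob (μ : PMF ℕ) (n : ℕ) (h : gw μ (hasSize n) ≠ 0) :
    IsProbabilityMeasure (gwn μ n) := cond_isProbabilityMeasure h

lemma measurableSet_coord (u : List ℕ) (s : Set ℕ) :
    MeasurableSet {ξ : List ℕ → ℕ | ξ u ∈ s} :=
  measurable_pi_apply u (MeasurableSet.of_discrete)

lemma measurableSet_inTree (u : List ℕ) : MeasurableSet {ξ : List ℕ → ℕ | InTree ξ u} := by
  induction u with
  | nil => exact MeasurableSet.univ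
  | cons i u ih => exact ih.inter (measurableSet_coord u {k | i < k})

lemma measurableSet_hasSize (n : ℕ) : MeasurableSet (hasSize n) := by
  have h1 : hasSize n = ⋃ s : Finset (List ℕ), ⋃ (_ : s.card = n),
      ⋂ u : List ℕ, {ξ : List ℕ → ℕ | InTree ξ u ↔ u ∈ s} := by
    ext ξ
    simp only [hasSize, Set.mem_ofPred_eq, Set.mem_iUnion, Set.mem_iInter, exists_prop]
    constructor
    · intro h
      have hfin : (tree ξ).Finite := Set.finite_of_encard_eq_coe h
      refine ⟨hfin.toFinset, ?_, fun u => ?_⟩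
      · rw [hfin.encard_eq_coe_toFinset_card] at h
        exact_mod_cast h
      · rw [Set.Finite.mem_toFinset]; rfl
    · rintro ⟨s, hs, hs2⟩
      have h2 : tree ξ = (s : Set (List ℕ)) := by
        ext u
        exact hs2 u
      rw [h2, Set.encard_coe_eq_coe_finsetCard, hs]
  rw [h1]
  refine MeasurableSet.iUnion fun s => MeasurableSet.iUnion fun _ => MeasurableSet.iInter fun u => ?_
  by_cases hu : u ∈ s
  · simp only [hu, iff_true]
    exact measurableSet_inTree u
  · simp only [hu, iff_false]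
    exact (measurableSet_inTree u).compl

/-- the event that the tree has a vertex at level `h` -/
lemma height_lt_or {ξ : List ℕ → ℕ} {n h : ℕ} (hn : ξ ∈ hasSize n) (hh : h ≤ height ξ) :
    ∃ u ∈ tree ξ, u.length = h := by
  have hfin : (tree ξ).Finite := Set.finite_of_encard_eq_coe hn
  have hne : (List.length '' tree ξ).Nonempty := ⟨0, [], trivial, rfl⟩
  have hmem : height ξ ∈ List.length '' tree ξ := Nat.sSup_mem hne (hfin.image _).bddAbove
  obtain ⟨v, hv, hvl⟩ := hmem
  refine ⟨v.drop (v.length - h), ?_, ?_⟩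
  · have hd : ∀ (k : ℕ) (v : List ℕ), v ∈ tree ξ → v.drop k ∈ tree ξ := by
      intro k
      induction k with
      | zero => intro v hv; simpa using hv
      | succ k ih =>
        intro v hv
        cases v with
        | nil => simpa using hv
        | cons i v => exact ih v hv.1
    exact hd _ _ hv
  · rw [List.length_drop, hvl]
    omega

lemma height_lt {ξ : List ℕ → ℕ} {n : ℕ} (hn : ξ ∈ hasSize n) : height ξ < n := by
  by_contra hcon
  push Not at hcon
  have hfin : (tree ξ).Finite := Set.finite_of_encard_eq_coe hn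
  -- there is a vertex at each level 0..n, giving n+1 vertices
  have hex : ∀ h : Fin (n + 1), ∃ u ∈ tree ξ, u.length = (h : ℕ) := fun h =>
    height_lt_or hn (le_trans (by omega) hcon)
  choose g hg1 hg2 using hex
  have hinj : Function.Injective g := by
    intro a b hab
    apply Fin.ext
    rw [← hg2 a, ← hg2 b, hab]
  have h1 : (Set.range g).encard ≤ (tree ξ).encard :=
    Set.encard_le_encard (by rintro _ ⟨a, rfl⟩; exact hg1 a)
  have h2 : (Set.range g).encard = (n + 1 : ℕ) := by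
    rw [← Set.image_univ, hinj.encard_image, Set.encard_univ]
    simp
  have h3 : (tree ξ).encard = n := hn
  rw [h2, h3] at h1
  have h4 : n + 1 ≤ n := by exact_mod_cast h1
  omega

/-- events depending only on the coordinates in `S` -/
@[reducible] def sig (S : Set (List ℕ)) : MeasurableSpace (List ℕ → ℕ) :=
  ⨆ u ∈ S, MeasurableSpace.comap (fun ξ : List ℕ → ℕ => ξ u) ⊤

lemma sig_mono {S T : Set (List ℕ)} (h : S ⊆ T) : sig S ≤ sig T :=
  biSup_mono fun _ hu => h hu

lemma comap_le (u : List ℕ) :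
    MeasurableSpace.comap (fun ξ : List ℕ → ℕ => ξ u) ⊤ ≤
      (inferInstance : MeasurableSpace (List ℕ → ℕ)) := by
  have h : Measurable (fun ξ : List ℕ → ℕ => ξ u) := measurable_pi_apply u
  exact h.comap_le

lemma sig_coord {S : Set (List ℕ)} {u : List ℕ} (hu : u ∈ S) (s : Set ℕ) :
    MeasurableSet[sig S] {ξ : List ℕ → ℕ | ξ u ∈ s} := by
  have h : MeasurableSpace.comap (fun ξ : List ℕ → ℕ => ξ u) ⊤ ≤ sig S :=
    le_biSup (fun u => MeasurableSpace.comap (fun ξ : List ℕ → ℕ => ξ u) ⊤) hu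
  exact h _ ⟨s, trivial, rfl⟩

lemma iIndep_coord (μ : PMF ℕ) :
    iIndep (fun u : List ℕ => MeasurableSpace.comap (fun ξ : List ℕ → ℕ => ξ u) ⊤) (gw μ) := by
  have h := iIndepFun_infinitePi (P := fun _ : List ℕ => μ.toMeasure)
    (X := fun (_ : List ℕ) (k : ℕ) => k) (fun _ => measurable_id)
  exact h

lemma gw_coord (μ : PMF ℕ) (u : List ℕ) (s : Set ℕ) :
    gw μ {ξ : List ℕ → ℕ | ξ u ∈ s} = μ.toMeasure s := by
  have h := measurePreserving_eval_infinitePi (fun _ : List ℕ => μ.toMeasure) u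
  exact h.measure_preimage MeasurableSet.of_discrete.nullMeasurableSet

/-- a coordinate is independent of an event that does not look at it -/
lemma gw_inter (μ : PMF ℕ) {u : List ℕ} {S : Set (List ℕ)} (hu : u ∉ S) (s : Set ℕ)
    {A : Set (List ℕ → ℕ)} (hA : MeasurableSet[sig S] A) :
    gw μ ({ξ | ξ u ∈ s} ∩ A) = μ.toMeasure s * gw μ A := by
  have h1 := indep_iSup_of_disjoint (fun u => comap_le u) (iIndep_coord μ)
    (S := {u}) (T := S) (by rw [Set.disjoint_singleton_left]; exact hu)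
  rw [Indep_iff] at h1
  have h2 := h1 {ξ | ξ u ∈ s} A (sig_coord (S := {u}) rfl s) hA
  rw [h2, gw_coord]

/-- truncated mean -/
noncomputable def tmean (μ : PMF ℕ) (n : ℕ) : ℝ≥0∞ := ∑' k : ℕ, if k ≤ n then (k : ℝ≥0∞) * μ k else 0

/-- `u` is a vertex and all its proper ancestors have at most `n` children -/
def TT (n : ℕ) (ξ : List ℕ → ℕ) : List ℕ → Prop
  | [] => True
  | i :: u => TT n ξ u ∧ (i < ξ u ∧ ξ u ≤ n)

lemma sig_TT (n : ℕ) (u : List ℕ) :
    MeasurableSet[sig {v | v.length < u.length}] {ξ : List ℕ → ℕ | TT n ξ u} := by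
  induction u with
  | nil => exact @MeasurableSet.univ _ (sig _)
  | cons i u ih =>
    have hsub : {v : List ℕ | v.length < u.length} ⊆ {v : List ℕ | v.length < (i :: u).length} := by
      intro v hv
      simp only [Set.mem_ofPred_eq, List.length_cons] at hv ⊢
      omega
    have h1 : MeasurableSet[sig {v | v.length < (i :: u).length}] {ξ : List ℕ → ℕ | TT n ξ u} :=
      sig_mono hsub _ ih
    have h2 : MeasurableSet[sig {v | v.length < (i :: u).length}]
        {ξ : List ℕ → ℕ | ξ u ∈ {k | i < k ∧ k ≤ n}} := sig_coord (by simp) _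
    have h3 : {ξ : List ℕ → ℕ | TT n ξ (i :: u)} =
        {ξ : List ℕ → ℕ | TT n ξ u} ∩ {ξ : List ℕ → ℕ | ξ u ∈ {k | i < k ∧ k ≤ n}} := by
      ext ξ; exact Iff.rfl
    rw [h3]
    exact h1.inter h2

lemma gw_TT_cons (μ : PMF ℕ) (n i : ℕ) (u : List ℕ) :
    gw μ {ξ | TT n ξ (i :: u)} = μ.toMeasure {k | i < k ∧ k ≤ n} * gw μ {ξ | TT n ξ u} := by
  have h : {ξ : List ℕ → ℕ | TT n ξ (i :: u)} =
      {ξ | ξ u ∈ {k | i < k ∧ k ≤ n}} ∩ {ξ | TT n ξ u} := by
    ext ξ; exact and_comm
  rw [h]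
  exact gw_inter μ (S := {v | v.length < u.length}) (by simp) _ (sig_TT n u)

lemma sum_tail (μ : PMF ℕ) (n : ℕ) :
    ∑' i : ℕ, μ.toMeasure {k | i < k ∧ k ≤ n} = tmean μ n := by
  have h1 : ∀ i : ℕ, μ.toMeasure {k | i < k ∧ k ≤ n} =
      ∑' k : ℕ, if i < k ∧ k ≤ n then μ k else 0 := by
    intro i
    rw [PMF.toMeasure_apply (hs := MeasurableSet.of_discrete)]
    refine tsum_congr fun k => ?_
    rw [Set.indicator_apply]
    rfl
  simp only [h1]
  rw [ENNReal.tsum_comm]
  unfold tmean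
  refine tsum_congr fun k => ?_
  by_cases hk : k ≤ n
  · rw [if_pos hk, tsum_eq_sum (s := Finset.range k)]
    · rw [Finset.sum_congr rfl (g := fun _ => μ k)]
      · simp
      · intro i hi
        rw [if_pos ⟨Finset.mem_range.1 hi, hk⟩]
    · intro i hi
      rw [if_neg]
      rintro ⟨h, _⟩
      exact hi (Finset.mem_range.2 h)
  · rw [if_neg hk]
    simp [hk]

/-- expected number of such vertices at level `h` -/
noncomputable def SS (μ : PMF ℕ) (n h : ℕ) : ℝ≥0∞ :=
  ∑' u : List ℕ, if u.length = h then gw μ {ξ | TT n ξ u} else 0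

lemma SS_zero (μ : PMF ℕ) (n : ℕ) : SS μ n 0 = 1 := by
  unfold SS
  rw [tsum_eq_single []]
  · simp [TT]
  · intro u hu
    rw [if_neg]
    intro h
    exact hu (List.length_eq_zero_iff.1 h)

lemma SS_succ (μ : PMF ℕ) (n h : ℕ) : SS μ n (h + 1) = tmean μ n * SS μ n h := by
  unfold SS
  have hinj : Function.Injective (fun p : ℕ × List ℕ => p.1 :: p.2) := by
    rintro ⟨i, u⟩ ⟨j, v⟩ h
    simp only [List.cons.injEq] at h
    exact Prod.ext h.1 h.2
  rw [← hinj.tsum_eq]
  · rw [ENNReal.tsum_prod']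
    have h1 : ∀ i : ℕ, ∑' u : List ℕ, (if (i :: u).length = h + 1 then
        gw μ {ξ | TT n ξ (i :: u)} else 0) =
        μ.toMeasure {k | i < k ∧ k ≤ n} *
          ∑' u : List ℕ, (if u.length = h then gw μ {ξ | TT n ξ u} else 0) := by
      intro i
      rw [← ENNReal.tsum_mul_left]
      refine tsum_congr fun u => ?_
      by_cases hu : u.length = h
      · rw [if_pos hu, if_pos (by simp [hu]), gw_TT_cons]
      · rw [if_neg hu, if_neg (by simp [hu]), mul_zero]
    simp only [h1]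
    rw [ENNReal.tsum_mul_right, sum_tail]
  · intro u hu
    cases u with
    | nil =>
      exfalso
      apply hu
      simp
    | cons i u => exact ⟨(i, u), rfl⟩

lemma SS_eq (μ : PMF ℕ) (n h : ℕ) : SS μ n h = tmean μ n ^ h := by
  induction h with
  | zero => rw [SS_zero, pow_zero]
  | succ h ih => rw [SS_succ, ih, pow_succ, mul_comm]

lemma children_le {ξ : List ℕ → ℕ} {n : ℕ} (hn : ξ ∈ hasSize n) {v : List ℕ} (hv : v ∈ tree ξ) :
    ξ v ≤ n := by
  have h1 : ((fun i : ℕ => i :: v) '' Set.Iio (ξ v)).encard ≤ (tree ξ).encard := by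
    apply Set.encard_le_encard
    rintro _ ⟨i, hi, rfl⟩
    exact ⟨hv, hi⟩
  have hinj : Function.Injective (fun i : ℕ => i :: v) := by
    intro i j h
    simp only [List.cons.injEq] at h
    exact h.1
  rw [hinj.encard_image] at h1
  have h2 : (tree ξ).encard = n := hn
  rw [h2] at h1
  have h3 : (Set.Iio (ξ v)).encard = (ξ v : ℕ) := by
    rw [← Finset.coe_Iio, Set.encard_coe_eq_coe_finsetCard, Nat.card_Iio]
  rw [h3] at h1
  exact_mod_cast h1

lemma TT_of_tree {ξ : List ℕ → ℕ} {n : ℕ} (hn : ξ ∈ hasSize n) (u : List ℕ) (hu : u ∈ tree ξ) :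
    TT n ξ u := by
  induction u with
  | nil => trivial
  | cons i u ih => exact ⟨ih hu.1, hu.2, children_le hn hu.1⟩

/-- **Upper bound.** -/
theorem upper (μ : PMF ℕ) (n h : ℕ) :
    gw μ (hasSize n ∩ {ξ | h ≤ height ξ}) ≤ tmean μ n ^ h := by
  rw [← SS_eq]
  have hsub : hasSize n ∩ {ξ | h ≤ height ξ} ⊆
      ⋃ u : List ℕ, {ξ | u.length = h ∧ TT n ξ u} := by
    rintro ξ ⟨h1, h2⟩
    obtain ⟨u, hu, hl⟩ := height_lt_or h1 h2
    exact Set.mem_iUnion.2 ⟨u, hl, TT_of_tree h1 u hu⟩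
  refine (measure_mono hsub).trans ((measure_iUnion_le _).trans (le_of_eq ?_))
  unfold SS
  refine tsum_congr fun u => ?_
  by_cases hu : u.length = h
  · simp [hu]
  · simp [hu]

/-- the labels of the `j` children of `v` -/
def ch (v : List ℕ) (j : ℕ) : List (List ℕ) := (List.range j).map (fun i => i :: v)

/-- the forest hanging at the stack `L` has exactly `m` vertices (depth first exploration) -/
def Evp (ξ : List ℕ → ℕ) : ℕ → List (List ℕ) → Prop
  | 0, L => L = []
  | _ + 1, [] => False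
  | m + 1, v :: L => Evp ξ m (ch v (ξ v) ++ L)

/-- no label in the stack is an ancestor of another one -/
def Good (L : List (List ℕ)) : Prop := L.Pairwise (fun a b => ¬ a <:+ b ∧ ¬ b <:+ a)

/-- descendants of the stack -/
def Desc (L : List (List ℕ)) : Set (List ℕ) := {u | ∃ v ∈ L, v <:+ u}

lemma mem_ch {v w : List ℕ} {j : ℕ} : w ∈ ch v j ↔ ∃ i < j, w = i :: v := by
  unfold ch
  simp only [List.mem_map, List.mem_range]
  constructor
  · rintro ⟨i, hi, rfl⟩; exact ⟨i, hi, rfl⟩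
  · rintro ⟨i, hi, rfl⟩; exact ⟨i, hi, rfl⟩

lemma cons_not_suffix (i : ℕ) (v : List ℕ) : ¬ (i :: v) <:+ v := by
  intro h
  have := h.length_le
  simp at this

lemma good_tail {v : List ℕ} {L : List (List ℕ)} (h : Good (v :: L)) : Good L :=
  (List.pairwise_cons.1 h).2

lemma good_step {v : List ℕ} {L : List (List ℕ)} (h : Good (v :: L)) (j : ℕ) :
    Good (ch v j ++ L) := by
  obtain ⟨h1, h2⟩ := List.pairwise_cons.1 h
  refine List.pairwise_append.2 ⟨?_, h2, ?_⟩
  · unfold ch
    rw [List.pairwise_map]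
    refine List.Pairwise.imp ?_ (List.nodup_range (n := j))
    intro a b hab
    constructor
    · intro hs
      have := hs.eq_of_length (by simp)
      simp only [List.cons.injEq] at this
      exact hab this.1
    · intro hs
      have := hs.eq_of_length (by simp)
      simp only [List.cons.injEq] at this
      exact hab this.1.symm
  · intro a ha b hb
    obtain ⟨i, _, rfl⟩ := mem_ch.1 ha
    obtain ⟨h3, h4⟩ := h1 b hb
    have hv : v <:+ i :: v := List.suffix_cons i v
    refine ⟨fun hs => h3 (hv.trans hs), fun hs => ?_⟩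
    rcases List.suffix_cons_iff.1 hs with h5 | h5
    · exact h3 (h5 ▸ hv)
    · exact h4 h5

lemma desc_step (v : List ℕ) (L : List (List ℕ)) (j : ℕ) : Desc (ch v j ++ L) ⊆ Desc (v :: L) := by
  rintro u ⟨w, hw, hwu⟩
  rcases List.mem_append.1 hw with h | h
  · obtain ⟨i, _, rfl⟩ := mem_ch.1 h
    exact ⟨v, by simp, (List.suffix_cons i v).trans hwu⟩
  · exact ⟨w, by simp [h], hwu⟩

lemma not_mem_desc {v : List ℕ} {L : List (List ℕ)} (h : Good (v :: L)) (j : ℕ) :
    v ∉ Desc (ch v j ++ L) := by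
  rintro ⟨w, hw, hwu⟩
  rcases List.mem_append.1 hw with h1 | h1
  · obtain ⟨i, _, rfl⟩ := mem_ch.1 h1
    exact cons_not_suffix i v hwu
  · exact ((List.pairwise_cons.1 h).1 w h1).2 hwu

lemma evp_eq (m : ℕ) (v : List ℕ) (L : List (List ℕ)) :
    {ξ : List ℕ → ℕ | Evp ξ (m + 1) (v :: L)} =
      ⋃ j : ℕ, {ξ | ξ v ∈ ({j} : Set ℕ)} ∩ {ξ | Evp ξ m (ch v j ++ L)} := by
  ext ξ
  simp only [Set.mem_ofPred_eq, Set.mem_iUnion, Set.mem_inter_iff, Set.mem_singleton_iff]
  constructor
  · intro h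
    exact ⟨ξ v, rfl, h⟩
  · rintro ⟨j, rfl, h⟩
    exact h

lemma sig_evp (m : ℕ) (L : List (List ℕ)) :
    MeasurableSet[sig (Desc L)] {ξ : List ℕ → ℕ | Evp ξ m L} := by
  induction m generalizing L with
  | zero =>
    by_cases h : L = []
    · have : {ξ : List ℕ → ℕ | Evp ξ 0 L} = Set.univ := by
        ext ξ; simp [Evp, h]
      rw [this]; exact @MeasurableSet.univ _ (sig _)
    · have : {ξ : List ℕ → ℕ | Evp ξ 0 L} = ∅ := by
        ext ξ; simp [Evp, h]
      rw [this]; exact @MeasurableSet.empty _ (sig _)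
  | succ m ih =>
    cases L with
    | nil =>
      have : {ξ : List ℕ → ℕ | Evp ξ (m + 1) []} = ∅ := by
        ext ξ; simp [Evp]
      rw [this]; exact @MeasurableSet.empty _ (sig _)
    | cons v L =>
      rw [evp_eq]
      refine MeasurableSet.iUnion fun j => ?_
      have h1 : MeasurableSet[sig (Desc (v :: L))] {ξ : List ℕ → ℕ | ξ v ∈ ({j} : Set ℕ)} :=
        sig_coord (show v ∈ Desc (v :: L) from ⟨v, by simp, List.suffix_rfl⟩) _
      have h2 : MeasurableSet[sig (Desc (v :: L))] {ξ : List ℕ → ℕ | Evp ξ m (ch v j ++ L)} :=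
        sig_mono (desc_step v L j) _ (ih _)
      exact h1.inter h2

lemma sig_le (S : Set (List ℕ)) : sig S ≤ (inferInstance : MeasurableSpace (List ℕ → ℕ)) :=
  iSup₂_le fun u _ => comap_le u

/-- probability that a forest of `k` trees has `m` vertices -/
noncomputable def r (μ : PMF ℕ) : ℕ → ℕ → ℝ≥0∞
  | 0, k => if k = 0 then 1 else 0
  | _ + 1, 0 => 0
  | m + 1, k + 1 => ∑' j : ℕ, μ j * r μ m (k + j)

lemma gw_evp (μ : PMF ℕ) (m : ℕ) (L : List (List ℕ)) (hL : Good L) :
    gw μ {ξ | Evp ξ m L} = r μ m L.length := by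
  induction m generalizing L with
  | zero =>
    by_cases h : L = []
    · have : {ξ : List ℕ → ℕ | Evp ξ 0 L} = Set.univ := by
        ext ξ; simp [Evp, h]
      rw [this, measure_univ, h]
      simp [r]
    · have : {ξ : List ℕ → ℕ | Evp ξ 0 L} = ∅ := by
        ext ξ; simp [Evp, h]
      rw [this, measure_empty]
      simp [r, h]
  | succ m ih =>
    cases L with
    | nil =>
      have : {ξ : List ℕ → ℕ | Evp ξ (m + 1) []} = ∅ := by
        ext ξ; simp [Evp]
      rw [this, measure_empty]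
      simp [r]
    | cons v L =>
      rw [evp_eq, measure_iUnion]
      · rw [List.length_cons]
        show _ = ∑' j : ℕ, μ j * r μ m (L.length + j)
        refine tsum_congr fun j => ?_
        rw [gw_inter μ (not_mem_desc hL j) {j} (sig_evp m _), ih _ (good_step hL j)]
        congr 1
        · rw [PMF.toMeasure_apply_singleton _ _ MeasurableSet.of_discrete]
        · congr 1
          unfold ch
          simp [add_comm]
      · intro a b hab
        rw [Function.onFun, Set.disjoint_left]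
        rintro ξ ⟨h1, _⟩ ⟨h2, _⟩
        apply hab
        have e1 : ξ v = a := h1
        have e2 : ξ v = b := h2
        rw [← e1, ← e2]
      · intro j
        exact (measurableSet_coord v {j}).inter (sig_le _ _ (sig_evp m _))

lemma tree_suffix {ξ : List ℕ → ℕ} {u v : List ℕ} (h : v <:+ u) (hu : u ∈ tree ξ) : v ∈ tree ξ := by
  induction u with
  | nil =>
    have := List.suffix_nil.1 h
    rw [this]; exact hu
  | cons i u ih =>
    rcases List.suffix_cons_iff.1 h with h1 | h1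
    · rw [h1]; exact hu
    · exact ih h1 hu.1

lemma count_of_evp {ξ : List ℕ → ℕ} (m : ℕ) (L : List (List ℕ)) (hL : Good L)
    (hLt : ∀ v ∈ L, v ∈ tree ξ) (h : Evp ξ m L) : (tree ξ ∩ Desc L).encard = m := by
  induction m generalizing L with
  | zero =>
    have h0 : L = [] := h
    subst h0
    simp [Desc]
  | succ m ih =>
    cases L with
    | nil => exact absurd h (by simp [Evp])
    | cons v L =>
      have hstep := ih (ch v (ξ v) ++ L) (good_step hL _) (by
        intro w hw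
        rcases List.mem_append.1 hw with h1 | h1
        · obtain ⟨i, hi, rfl⟩ := mem_ch.1 h1
          exact ⟨hLt v (by simp), hi⟩
        · exact hLt w (by simp [h1])) h
      have heq : tree ξ ∩ Desc (v :: L) = insert v (tree ξ ∩ Desc (ch v (ξ v) ++ L)) := by
        ext u
        constructor
        · rintro ⟨hu, w, hw, hwu⟩
          rcases List.mem_cons.1 hw with h1 | h1
          · subst h1
            by_cases huw : u = w
            · left; exact huw
            · right
              obtain ⟨t, rfl⟩ := hwu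
              rcases List.eq_nil_or_concat t with h2 | ⟨t', i, h2⟩
              · exfalso; apply huw; rw [h2]; rfl
              · have h3 : t ++ w = t' ++ (i :: w) := by rw [h2]; simp
                refine ⟨hu, i :: w, ?_, ?_⟩
                · have h4 : (i :: w) ∈ tree ξ := tree_suffix ⟨t', h3.symm⟩ hu
                  exact List.mem_append_left _ (mem_ch.2 ⟨i, h4.2, rfl⟩)
                · exact ⟨t', h3.symm⟩
          · right
            exact ⟨hu, w, List.mem_append_right _ h1, hwu⟩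
        · rintro (rfl | ⟨hu, hd⟩)
          · exact ⟨hLt u (by simp), u, by simp, List.suffix_rfl⟩
          · exact ⟨hu, desc_step v L _ hd⟩
      rw [heq, Set.encard_insert_of_notMem (fun hm => not_mem_desc hL _ hm.2), hstep]
      push_cast; rfl

lemma evp_subset (n : ℕ) : {ξ : List ℕ → ℕ | Evp ξ n [[]]} ⊆ hasSize n := by
  intro ξ h
  have h1 := count_of_evp (ξ := ξ) n [[]] (by simp [Good]) (by
    intro v hv
    have : v = [] := by simpa using hv
    rw [this]; trivial) h
  have h2 : tree ξ ∩ Desc [[]] = tree ξ := by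
    apply Set.inter_eq_left.2
    intro u _
    exact ⟨[], by simp, List.nil_suffix⟩
  rw [h2] at h1
  exact h1

lemma r_le_hasSize (μ : PMF ℕ) (n : ℕ) : r μ n 1 ≤ gw μ (hasSize n) := by
  have h := gw_evp μ n [[]] (by simp [Good])
  rw [show ([[]] : List (List ℕ)).length = 1 from rfl] at h
  rw [← h]
  exact measure_mono (evp_subset n)

lemma r_zero_of_lt (μ : PMF ℕ) (m k : ℕ) (h : m < k) : r μ m k = 0 := by
  induction m generalizing k with
  | zero =>
    have : k ≠ 0 := by omega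
    simp [r, this]
  | succ m ih =>
    cases k with
    | zero => omega
    | succ k =>
      show ∑' j : ℕ, μ j * r μ m (k + j) = 0
      rw [ENNReal.tsum_eq_zero]
      intro j
      rw [ih (k + j) (by omega), mul_zero]

/-- potential -/
noncomputable def psi (t b : ℕ) : ℝ≥0∞ := (b : ℝ≥0∞) / ((b : ℝ≥0∞) + t)

noncomputable def UU (μ : PMF ℕ) (t m : ℕ) : ℝ≥0∞ := ∑' k : ℕ, psi t k * r μ m k

lemma crit_ineq {μ : PMF ℕ} (hμ : Critical μ) (b : ℕ) :
    (b : ℝ≥0∞) ≤ ∑ p ∈ Finset.HasAntidiagonal.antidiagonal b, ((p.1 : ℝ≥0∞) + 1) * μ p.2 := by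
  have h1 : ((b : ℝ≥0∞) + 1) ≤ ∑ p ∈ Finset.HasAntidiagonal.antidiagonal b, ((p.1 : ℝ≥0∞) + 1) * μ p.2 + 1 := by
    have e1 : ∑' j : ℕ, ((b : ℝ≥0∞) + 1) * μ j = (b : ℝ≥0∞) + 1 := by
      rw [ENNReal.tsum_mul_left, PMF.tsum_coe, mul_one]
    have e2 : ∀ j : ℕ, ((b : ℝ≥0∞) + 1) * μ j ≤
        (if j ∈ Finset.range (b + 1) then (((b - j : ℕ) : ℝ≥0∞) + 1) * μ j else 0) +
          (j : ℝ≥0∞) * μ j := by
      intro j
      by_cases hj : j ∈ Finset.range (b + 1)
      · rw [if_pos hj, ← add_mul]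
        have hj' := Finset.mem_range.1 hj
        have : ((b : ℝ≥0∞) + 1) = (((b - j : ℕ) : ℝ≥0∞) + 1) + j := by
          have : b = (b - j) + j := by omega
          calc ((b : ℝ≥0∞) + 1) = (((b - j) + j : ℕ) : ℝ≥0∞) + 1 := by rw [← this]
            _ = _ := by push_cast; ring
        rw [this]
      · rw [if_neg hj, zero_add]
        have hj' : b + 1 ≤ j := by
          simpa using hj
        have : ((b : ℝ≥0∞) + 1) ≤ (j : ℝ≥0∞) := by exact_mod_cast hj'
        gcongr
    have e3 : ∑ p ∈ Finset.HasAntidiagonal.antidiagonal b, ((p.1 : ℝ≥0∞) + 1) * μ p.2 =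
        ∑' j : ℕ, (if j ∈ Finset.range (b + 1) then (((b - j : ℕ) : ℝ≥0∞) + 1) * μ j else 0) := by
      rw [tsum_eq_sum (s := Finset.range (b + 1)) (fun j hj => if_neg hj)]
      rw [Finset.Nat.sum_antidiagonal_eq_sum_range_succ_mk, ← Finset.sum_range_reflect]
      refine Finset.sum_congr rfl fun j hj => ?_
      have hj' := Finset.mem_range.1 hj
      rw [if_pos hj]
      have a1 : b.succ - 1 - j = b - j := by omega
      have a2 : b - (b.succ - 1 - j) = j := by omega
      simp only [a1]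
      rw [show b - (b - j) = j by omega]
    calc ((b : ℝ≥0∞) + 1) = ∑' j : ℕ, ((b : ℝ≥0∞) + 1) * μ j := e1.symm
      _ ≤ ∑' j : ℕ, ((if j ∈ Finset.range (b + 1) then (((b - j : ℕ) : ℝ≥0∞) + 1) * μ j else 0) +
          (j : ℝ≥0∞) * μ j) := ENNReal.tsum_le_tsum e2
      _ = _ := by rw [ENNReal.tsum_add, hμ.1, e3]
  exact (ENNReal.add_le_add_iff_right ENNReal.one_ne_top).1 h1

lemma psi_ineq {μ : PMF ℕ} (hμ : Critical μ) (t b : ℕ) :
    psi (t + 1) b ≤ ∑ p ∈ Finset.HasAntidiagonal.antidiagonal b, psi t (p.1 + 1) * μ p.2 := by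
  unfold psi
  calc (b : ℝ≥0∞) / ((b : ℝ≥0∞) + ((t + 1 : ℕ) : ℝ≥0∞))
      ≤ (∑ p ∈ Finset.HasAntidiagonal.antidiagonal b, ((p.1 : ℝ≥0∞) + 1) * μ p.2) /
          ((b : ℝ≥0∞) + ((t + 1 : ℕ) : ℝ≥0∞)) := ENNReal.div_le_div_right (crit_ineq hμ b) _
    _ = ∑ p ∈ Finset.HasAntidiagonal.antidiagonal b, (((p.1 : ℝ≥0∞) + 1) * μ p.2) /
          ((b : ℝ≥0∞) + ((t + 1 : ℕ) : ℝ≥0∞)) := by
        simp only [div_eq_mul_inv, Finset.sum_mul]
    _ ≤ ∑ p ∈ Finset.HasAntidiagonal.antidiagonal b, ((p.1 + 1 : ℕ) : ℝ≥0∞) / (((p.1 + 1 : ℕ) : ℝ≥0∞) + t) *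
          μ p.2 := by
        refine Finset.sum_le_sum fun p hp => ?_
        have hp' := Finset.HasAntidiagonal.mem_antidiagonal.1 hp
        rw [ENNReal.mul_div_right_comm]
        push_cast
        gcongr ?_ * _
        apply ENNReal.div_le_div_left
        have : (p.1 : ℝ≥0∞) ≤ b := by exact_mod_cast (by omega : p.1 ≤ b)
        calc (p.1 : ℝ≥0∞) + 1 + t ≤ b + 1 + t := by gcongr
          _ = b + (t + 1) := by ring

lemma UU_step {μ : PMF ℕ} (hμ : Critical μ) (t m : ℕ) : UU μ (t + 1) m ≤ UU μ t (m + 1) := by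
  unfold UU
  have h1 : ∑' k : ℕ, psi t k * r μ (m + 1) k =
      ∑' k : ℕ, ∑' j : ℕ, psi t (k + 1) * μ j * r μ m (k + j) := by
    have hinj : Function.Injective Nat.succ := Nat.succ_injective
    rw [← hinj.tsum_eq]
    · refine tsum_congr fun k => ?_
      show psi t (k + 1) * (∑' j : ℕ, μ j * r μ m (k + j)) = _
      rw [← ENNReal.tsum_mul_left]
      refine tsum_congr fun j => ?_
      rw [mul_assoc]
    · intro k hk
      cases k with
      | zero =>
        exfalso
        apply hk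
        show psi t 0 * 0 = 0
        rw [mul_zero]
      | succ k => exact ⟨k, rfl⟩
  rw [h1]
  have h2 : ∑' k : ℕ, ∑' j : ℕ, psi t (k + 1) * μ j * r μ m (k + j) =
      ∑' p : ℕ × ℕ, psi t (p.1 + 1) * μ p.2 * r μ m (p.1 + p.2) := by
    rw [ENNReal.tsum_prod']
  have h4 := Equiv.tsum_eq (Finset.HasAntidiagonal.sigmaAntidiagonalEquivProd (A := ℕ))
    (fun p : ℕ × ℕ => psi t (p.1 + 1) * μ p.2 * r μ m (p.1 + p.2))
  rw [h2, ← h4]
  rw [ENNReal.tsum_sigma']
  refine ENNReal.tsum_le_tsum fun b => ?_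
  have h3 : ∑' (x : Finset.HasAntidiagonal.antidiagonal b),
      psi t ((Finset.HasAntidiagonal.sigmaAntidiagonalEquivProd ⟨b, x⟩ : ℕ × ℕ).1 + 1) *
        μ (Finset.HasAntidiagonal.sigmaAntidiagonalEquivProd ⟨b, x⟩ : ℕ × ℕ).2 *
        r μ m ((Finset.HasAntidiagonal.sigmaAntidiagonalEquivProd ⟨b, x⟩ : ℕ × ℕ).1 +
          (Finset.HasAntidiagonal.sigmaAntidiagonalEquivProd ⟨b, x⟩ : ℕ × ℕ).2) =
      ∑ p ∈ Finset.HasAntidiagonal.antidiagonal b, psi t (p.1 + 1) * μ p.2 * r μ m b := by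
    rw [tsum_fintype, ← Finset.sum_coe_sort (Finset.HasAntidiagonal.antidiagonal b)
      (fun p => psi t (p.1 + 1) * μ p.2 * r μ m b)]
    refine Finset.sum_congr rfl fun x _ => ?_
    have hx := Finset.HasAntidiagonal.mem_antidiagonal.1 x.2
    simp only [Finset.HasAntidiagonal.sigmaAntidiagonalEquivProd_apply]
    rw [hx]
  rw [h3, ← Finset.sum_mul]
  gcongr
  exact psi_ineq hμ t b

lemma UU_iter {μ : PMF ℕ} (hμ : Critical μ) (t s m : ℕ) : UU μ (t + s) m ≤ UU μ t (m + s) := by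
  induction s generalizing t m with
  | zero => exact le_rfl
  | succ s ih =>
    calc UU μ (t + (s + 1)) m = UU μ ((t + 1) + s) m := by rw [show t + (s + 1) = t + 1 + s by ring]
      _ ≤ UU μ (t + 1) (m + s) := ih (t + 1) m
      _ ≤ UU μ t (m + s + 1) := UU_step hμ t (m + s)

lemma psi_le_one (t b : ℕ) : psi t b ≤ 1 := by
  unfold psi
  apply ENNReal.div_le_of_le_mul
  rw [one_mul]
  exact le_self_add

lemma sum_r_ge {μ : PMF ℕ} (hμ : Critical μ) (m : ℕ) :
    μ 0 / ((m : ℝ≥0∞) + 1) ≤ ∑' k : ℕ, r μ (m + 1) k := by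
  have h1 : ∑' k : ℕ, r μ (m + 1) k ≥ UU μ 0 (m + 1) := by
    unfold UU
    refine ENNReal.tsum_le_tsum fun k => ?_
    exact (mul_le_mul_left (psi_le_one 0 k) _).trans (le_of_eq (one_mul _))
  have h2 : UU μ m 1 ≤ UU μ 0 (m + 1) := by
    have := UU_iter hμ 0 m 1
    rwa [zero_add, add_comm 1 m] at this
  have h3 : μ 0 / ((m : ℝ≥0∞) + 1) ≤ UU μ m 1 := by
    unfold UU
    refine le_trans ?_ (ENNReal.le_tsum 1)
    have h4 : r μ 1 1 = μ 0 := by
      show ∑' j : ℕ, μ j * r μ 0 (0 + j) = μ 0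
      rw [tsum_eq_single 0]
      · simp [r]
      · intro j hj
        simp [r, hj]
    rw [h4]
    unfold psi
    rw [div_eq_mul_inv, div_eq_mul_inv, Nat.cast_one, one_mul, mul_comm, add_comm]
  exact h3.trans (h2.trans h1)

/-- **Lower bound.** -/
theorem lower {μ : PMF ℕ} (hμ : Critical μ) (m : ℕ) (c : ℝ≥0∞) (hc : ∀ j ≤ m + 1, c ≤ μ j) :
    c * (μ 0 / ((m : ℝ≥0∞) + 1)) ≤ gw μ (hasSize (m + 2)) := by
  refine le_trans ?_ (r_le_hasSize μ (m + 2))
  have h1 : r μ (m + 2) 1 = ∑' j : ℕ, μ j * r μ (m + 1) j := by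
    show ∑' j : ℕ, μ j * r μ (m + 1) (0 + j) = _
    simp
  rw [h1]
  calc c * (μ 0 / ((m : ℝ≥0∞) + 1)) ≤ c * ∑' k : ℕ, r μ (m + 1) k := by
        gcongr; exact sum_r_ge hμ m
    _ = ∑' k : ℕ, c * r μ (m + 1) k := ENNReal.tsum_mul_left.symm
    _ ≤ ∑' j : ℕ, μ j * r μ (m + 1) j := by
        refine ENNReal.tsum_le_tsum fun j => ?_
        by_cases hj : j ≤ m + 1
        · gcongr
          exact hc j hj
        · rw [r_zero_of_lt μ (m + 1) j (by omega), mul_zero]
          exact zero_le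

lemma size_one (μ : PMF ℕ) : μ 0 ≤ gw μ (hasSize 1) := by
  refine le_trans (le_of_eq ?_) (r_le_hasSize μ 1)
  show μ 0 = ∑' j : ℕ, μ j * r μ 0 (0 + j)
  rw [tsum_eq_single 0]
  · simp [r]
  · intro j hj
    simp [r, hj]

section A

variable (f : ℕ → ℝ)

/-- a decreasing sequence above `1/√f` -/
noncomputable def AA (n : ℕ) : ℝ := ⨆ m : ℕ, (Real.sqrt (f (n + m)))⁻¹

variable {f}

lemma tendsto_inv_sqrt (hf : Tendsto f atTop atTop) :
    Tendsto (fun n => (Real.sqrt (f n))⁻¹) atTop (𝓝 0) :=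
  (Real.tendsto_sqrt_atTop.comp hf).inv_tendsto_atTop

lemma bdd (hf : Tendsto f atTop atTop) (n : ℕ) :
    BddAbove (Set.range fun m : ℕ => (Real.sqrt (f (n + m)))⁻¹) := by
  obtain ⟨B, hB⟩ := (tendsto_inv_sqrt hf).bddAbove_range
  refine ⟨B, ?_⟩
  rintro _ ⟨m, rfl⟩
  exact hB ⟨n + m, rfl⟩

lemma le_AA (hf : Tendsto f atTop atTop) (n : ℕ) : (Real.sqrt (f n))⁻¹ ≤ AA f n := by
  have := le_ciSup (bdd hf n) 0
  simpa [AA] using this

lemma AA_nonneg (hf : Tendsto f atTop atTop) (n : ℕ) : 0 ≤ AA f n :=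
  (inv_nonneg.2 (Real.sqrt_nonneg _)).trans (le_AA hf n)

lemma AA_succ (hf : Tendsto f atTop atTop) (n : ℕ) : AA f (n + 1) ≤ AA f n := by
  refine ciSup_le fun m => ?_
  have := le_ciSup (bdd hf n) (1 + m)
  rw [show n + 1 + m = n + (1 + m) by ring]
  exact this

lemma AA_tendsto (hf : Tendsto f atTop atTop) : Tendsto (AA f) atTop (𝓝 0) := by
  rw [Metric.tendsto_atTop]
  intro ε hε
  obtain ⟨N, hN⟩ := (Metric.tendsto_atTop.1 (tendsto_inv_sqrt hf)) (ε / 2) (by linarith)
  refine ⟨N, fun n hn => ?_⟩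
  rw [Real.dist_eq, sub_zero, abs_of_nonneg (AA_nonneg hf n)]
  have : AA f n ≤ ε / 2 := by
    refine ciSup_le fun m => ?_
    have h1 := hN (n + m) (by omega)
    rw [Real.dist_eq, sub_zero] at h1
    exact (le_abs_self _).trans h1.le
  linarith

end A

/-- unnormalised weights: `bb A k` stands for `(k+1) μ_{k+1}` -/
noncomputable def bb (A : ℕ → ℝ) (k : ℕ) : ℝ := 1 / ((k : ℝ) + 1) ^ 2 + (A k - A (k + 1))

/-- Everything we need from the offspring distribution. -/
theorem exists_offspring (A : ℕ → ℝ) (hA0 : ∀ n, 0 ≤ A n) (hA1 : ∀ n, A (n + 1) ≤ A n)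
    (hA2 : Tendsto A atTop (𝓝 0)) :
    ∃ (μ : PMF ℕ) (B c : ℝ), 0 < B ∧ 0 < c ∧ c ≤ 1 ∧ Critical μ ∧
      ENNReal.ofReal c ≤ μ 0 ∧
      (∀ k : ℕ, ENNReal.ofReal (c / ((k : ℝ) + 1) ^ 3) ≤ μ (k + 1)) ∧
      ∀ n : ℕ, tmean μ n ≤ ENNReal.ofReal (1 - A n / B) := by
  -- sums
  have hs1 : Summable (fun k : ℕ => 1 / ((k : ℝ) + 1) ^ 2) := by
    have := (summable_nat_add_iff 1).2 (Real.summable_one_div_nat_pow.2 (by norm_num : 1 < 2))
    simpa using this
  have hs2 : HasSum (fun k : ℕ => A k - A (k + 1)) (A 0) := by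
    rw [hasSum_iff_tendsto_nat_of_nonneg (fun k => by linarith [hA1 k])]
    have : (fun n => ∑ i ∈ Finset.range n, (A i - A (i + 1))) = fun n => A 0 - A n := by
      funext n
      exact Finset.sum_range_sub' A n
    rw [this]
    simpa using tendsto_const_nhds.sub hA2
  set Z : ℝ := ∑' k : ℕ, 1 / ((k : ℝ) + 1) ^ 2 with hZ
  set B : ℝ := Z + A 0 with hB
  have hsb : HasSum (bb A) B := hs1.hasSum.add hs2
  have hbpos : ∀ k, 0 < bb A k := by
    intro k
    unfold bb
    have : 0 < 1 / ((k : ℝ) + 1) ^ 2 := by positivity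
    linarith [hA1 k]
  have hblow : ∀ k : ℕ, 1 / ((k : ℝ) + 1) ^ 2 ≤ bb A k := by
    intro k
    unfold bb
    linarith [hA1 k]
  have hZpos : 0 < Z := by
    have : (1 : ℝ) / ((0 : ℕ) + 1) ^ 2 ≤ Z := hs1.le_tsum 0 (fun _ _ => by positivity)
    have h2 : (1 : ℝ) / (((0 : ℕ) : ℝ) + 1) ^ 2 = 1 := by norm_num
    linarith
  have hBpos : 0 < B := by linarith [hA0 0]
  -- weights
  set v : ℕ → ℝ := fun k => bb A k / (B * ((k : ℝ) + 1)) with hv
  have hvpos : ∀ k, 0 < v k := fun k => div_pos (hbpos k) (by positivity)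
  have hsa : HasSum (fun k => bb A k / B) 1 := by
    have := hsb.div_const B
    rwa [div_self hBpos.ne'] at this
  have hva : ∀ k, v k ≤ bb A k / B := by
    intro k
    rw [hv]
    apply div_le_div_of_nonneg_left (hbpos k).le hBpos
    nlinarith [(Nat.cast_nonneg k : (0 : ℝ) ≤ k)]
  have hsv : Summable v := Summable.of_nonneg_of_le (fun k => (hvpos k).le) hva hsa.summable
  set w0 : ℝ := 1 - ∑' k, v k with hw0
  have hw0pos : 0 < w0 := by
    have h1 : ∑' k, v k < ∑' k, bb A k / B := by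
      refine hsv.tsum_lt_tsum hva (i := 1) ?_ hsa.summable
      rw [hv]
      apply div_lt_div_of_pos_left (hbpos 1) hBpos
      push_cast
      linarith
    rw [hsa.tsum_eq] at h1
    linarith
  set w : ℕ → ℝ := fun k => match k with
    | 0 => w0
    | k + 1 => v k with hw
  have hwpos : ∀ k, 0 < w k := by
    intro k
    cases k with
    | zero => exact hw0pos
    | succ k => exact hvpos k
  have hws : HasSum w 1 := by
    have h1 : HasSum (fun k => w (k + 1)) (∑' k, v k) := hsv.hasSum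
    have h2 := (hasSum_nat_add_iff 1).1 h1
    simp only [Finset.range_one, Finset.sum_singleton] at h2
    have h3 : ∑' k, v k + w 0 = 1 := by
      show ∑' k, v k + w0 = 1
      rw [hw0]; ring
    rwa [h3] at h2
  have hws' : HasSum (fun k => (w k).toNNReal) 1 := by
    rw [← NNReal.hasSum_coe]
    simp only [Real.coe_toNNReal _ (hwpos _).le]
    exact_mod_cast hws
  let μ : PMF ℕ := ⟨fun k => ((w k).toNNReal : ℝ≥0∞), by
    have := ENNReal.hasSum_coe.2 hws'
    simpa using this⟩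
  have hμ : ∀ k, μ k = ENNReal.ofReal (w k) := fun k => rfl
  -- first moments
  have hkw : ∀ k : ℕ, (k : ℝ≥0∞) * μ k = ENNReal.ofReal ((k : ℝ) * w k) := by
    intro k
    rw [hμ, ENNReal.ofReal_mul (Nat.cast_nonneg k), ENNReal.ofReal_natCast]
  have hkw1 : ∀ k : ℕ, ((k + 1 : ℕ) : ℝ) * w (k + 1) = bb A k / B := by
    intro k
    show ((k + 1 : ℕ) : ℝ) * (bb A k / (B * ((k : ℝ) + 1))) = _
    push_cast
    field_simp
  have hmean : HasSum (fun k : ℕ => (k : ℝ) * w k) 1 := by
    have h1 : HasSum (fun k : ℕ => ((k + 1 : ℕ) : ℝ) * w (k + 1)) 1 := by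
      simp only [hkw1]; exact hsa
    have h2 := (hasSum_nat_add_iff (f := fun k : ℕ => (k : ℝ) * w k) 1).1 h1
    simpa using h2
  have hcrit : Critical μ := by
    constructor
    · simp only [hkw]
      rw [← ENNReal.ofReal_tsum_of_nonneg
        (fun k => mul_nonneg (Nat.cast_nonneg k) (hwpos k).le) hmean.summable, hmean.tsum_eq,
        ENNReal.ofReal_one]
    · rw [hμ, ENNReal.ofReal_lt_one]
      have h1 : w 1 + w 0 ≤ 1 := by
        have := sum_le_hasSum (Finset.range 2) (fun k _ => (hwpos k).le) hws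
        simp only [Finset.sum_range_succ, Finset.range_zero, Finset.sum_empty, zero_add] at this
        linarith
      linarith [hwpos 0]
  refine ⟨μ, B, min (min w0 (1 / B)) 1, hBpos, lt_min (lt_min hw0pos (by positivity)) one_pos,
    min_le_right _ _, hcrit, ?_, ?_, ?_⟩
  · rw [hμ]
    exact ENNReal.ofReal_le_ofReal ((min_le_left _ _).trans (min_le_left _ _))
  · intro k
    rw [hμ]
    apply ENNReal.ofReal_le_ofReal
    show _ ≤ v k
    calc min (min w0 (1 / B)) 1 / ((k : ℝ) + 1) ^ 3 ≤ (1 / B) / ((k : ℝ) + 1) ^ 3 := by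
          apply div_le_div_of_nonneg_right _ (by positivity)
          exact (min_le_left _ _).trans (min_le_right _ _)
      _ = (1 / ((k : ℝ) + 1) ^ 2) / (B * ((k : ℝ) + 1)) := by
          field_simp
      _ ≤ v k := by
          rw [hv]
          exact div_le_div_of_nonneg_right (hblow k) (by positivity)
  · intro n
    have h1 : tmean μ n = ∑ k ∈ Finset.range (n + 1), ENNReal.ofReal ((k : ℝ) * w k) := by
      unfold tmean
      rw [tsum_eq_sum (s := Finset.range (n + 1))]
      · refine Finset.sum_congr rfl fun k hk => ?_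
        rw [if_pos (Nat.lt_succ_iff.1 (Finset.mem_range.1 hk)), hkw]
      · intro k hk
        rw [if_neg]
        intro h
        exact hk (Finset.mem_range.2 (Nat.lt_succ_iff.2 h))
    rw [h1, ← ENNReal.ofReal_sum_of_nonneg
      (fun k _ => mul_nonneg (Nat.cast_nonneg k) (hwpos k).le)]
    apply ENNReal.ofReal_le_ofReal
    rw [Finset.sum_range_succ']
    simp only [Nat.cast_zero, zero_mul, add_zero]
    rw [Finset.sum_congr rfl (fun k _ => hkw1 k), ← Finset.sum_div]
    have h2 : ∑ k ∈ Finset.range n, bb A k ≤ B - A n := by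
      unfold bb
      rw [Finset.sum_add_distrib, Finset.sum_range_sub' A n]
      have h3 : ∑ k ∈ Finset.range n, 1 / ((k : ℝ) + 1) ^ 2 ≤ Z :=
        hs1.sum_le_tsum _ (fun _ _ => by positivity)
      rw [hB]
      linarith
    rw [div_le_iff₀ hBpos, sub_mul, one_mul, div_mul_cancel₀ _ hBpos.ne']
    exact h2

lemma gwn_apply (μ : PMF ℕ) (n : ℕ) (s : Set (List ℕ → ℕ)) :
    gwn μ n s = (gw μ (hasSize n))⁻¹ * gw μ (hasSize n ∩ s) :=
  cond_apply (measurableSet_hasSize n) _ _

/-- size probabilities -/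
lemma size_lower {μ : PMF ℕ} (hμ : Critical μ) {c : ℝ} (hc : 0 < c) (hc1 : c ≤ 1)
    (h0 : ENNReal.ofReal c ≤ μ 0)
    (h1 : ∀ k : ℕ, ENNReal.ofReal (c / ((k : ℝ) + 1) ^ 3) ≤ μ (k + 1)) (n : ℕ) (hn : 1 ≤ n) :
    ENNReal.ofReal (c ^ 2 / (n : ℝ) ^ 4) ≤ gw μ (hasSize n) := by
  have hn' : (1 : ℝ) ≤ n := by exact_mod_cast hn
  by_cases hn1 : n = 1
  · subst hn1
    refine le_trans ?_ (size_one μ)
    refine le_trans (ENNReal.ofReal_le_ofReal ?_) h0
    norm_num
    nlinarith
  · obtain ⟨m, rfl⟩ : ∃ m, n = m + 2 := ⟨n - 2, by omega⟩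
    have hcj : ∀ j ≤ m + 1, ENNReal.ofReal (c / ((m : ℝ) + 1) ^ 3) ≤ μ j := by
      intro j hj
      cases j with
      | zero =>
        refine le_trans (ENNReal.ofReal_le_ofReal ?_) h0
        apply div_le_self hc.le
        apply one_le_pow₀
        linarith [(Nat.cast_nonneg m : (0 : ℝ) ≤ m)]
      | succ k =>
        refine le_trans (ENNReal.ofReal_le_ofReal ?_) (h1 k)
        apply div_le_div_of_nonneg_left hc.le (by positivity)
        have : (k : ℝ) ≤ m := by exact_mod_cast (by omega : k ≤ m)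
        gcongr
    refine le_trans ?_ (lower hμ m _ hcj)
    calc ENNReal.ofReal (c ^ 2 / ((m + 2 : ℕ) : ℝ) ^ 4)
        ≤ ENNReal.ofReal ((c / ((m : ℝ) + 1) ^ 3) * (c / ((m : ℝ) + 1))) := by
          apply ENNReal.ofReal_le_ofReal
          have e1 : (c / ((m : ℝ) + 1) ^ 3) * (c / ((m : ℝ) + 1)) = c ^ 2 / ((m : ℝ) + 1) ^ 4 := by
            field_simp
          rw [e1]
          apply div_le_div_of_nonneg_left (by positivity) (by positivity)
          push_cast
          gcongr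
          norm_num
      _ = ENNReal.ofReal (c / ((m : ℝ) + 1) ^ 3) * (ENNReal.ofReal c / ((m : ℝ≥0∞) + 1)) := by
          have e5 : ENNReal.ofReal (c / ((m : ℝ) + 1)) = ENNReal.ofReal c / ((m : ℝ≥0∞) + 1) := by
            rw [ENNReal.ofReal_div_of_pos (by positivity),
              ENNReal.ofReal_add (Nat.cast_nonneg m) zero_le_one, ENNReal.ofReal_natCast,
              ENNReal.ofReal_one]
          rw [ENNReal.ofReal_mul (by positivity), e5]
      _ ≤ _ := by
          gcongr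

/-- the key quantitative estimate -/
lemma key_estimate {μ : PMF ℕ} (hμ : Critical μ) {c B : ℝ} (hc : 0 < c) (hc1 : c ≤ 1)
    (hB : 0 < B) (h0 : ENNReal.ofReal c ≤ μ 0)
    (h1 : ∀ k : ℕ, ENNReal.ofReal (c / ((k : ℝ) + 1) ^ 3) ≤ μ (k + 1))
    {A : ℕ → ℝ} (hA : ∀ n, 0 ≤ A n)
    (hm : ∀ n : ℕ, tmean μ n ≤ ENNReal.ofReal (1 - A n / B)) (n : ℕ) (hn : 1 ≤ n) (x : ℝ)
    (hx : 5 * B * Real.log n ≤ A n * x) :
    gwn μ n {ξ | x < (height ξ : ℝ)} ≤ ENNReal.ofReal ((c ^ 2)⁻¹ / n) := by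
  have hn' : (1 : ℝ) ≤ n := by exact_mod_cast hn
  have hn0 : (0 : ℝ) < n := by linarith
  set h := ⌈x⌉₊ with hh
  have hsub : {ξ : List ℕ → ℕ | x < (height ξ : ℝ)} ⊆ {ξ | h ≤ height ξ} := by
    intro ξ hξ
    exact Nat.ceil_le.2 (le_of_lt hξ)
  have hup : gw μ (hasSize n ∩ {ξ | x < (height ξ : ℝ)}) ≤ ENNReal.ofReal (((n : ℝ) ^ 5)⁻¹) := by
    calc gw μ (hasSize n ∩ {ξ | x < (height ξ : ℝ)})
        ≤ gw μ (hasSize n ∩ {ξ | h ≤ height ξ}) :=
          measure_mono (Set.inter_subset_inter_right _ hsub)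
      _ ≤ tmean μ n ^ h := upper μ n h
      _ ≤ (ENNReal.ofReal (Real.exp (-(A n / B)))) ^ h := by
          gcongr
          refine (hm n).trans (ENNReal.ofReal_le_ofReal ?_)
          have := Real.add_one_le_exp (-(A n / B))
          linarith
      _ = ENNReal.ofReal (Real.exp (-(A n / B) * h)) := by
          rw [← ENNReal.ofReal_pow (Real.exp_nonneg _), ← Real.exp_nat_mul, mul_comm]
      _ ≤ ENNReal.ofReal (((n : ℝ) ^ 5)⁻¹) := by
          apply ENNReal.ofReal_le_ofReal
          have e1 : ((n : ℝ) ^ 5)⁻¹ = Real.exp (-(5 * Real.log n)) := by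
            rw [Real.exp_neg]
            congr 1
            rw [show (5 : ℝ) * Real.log n = ((5 : ℕ) : ℝ) * Real.log n by norm_num,
              Real.exp_nat_mul, Real.exp_log hn0]
          rw [e1]
          apply Real.exp_le_exp.2
          have e2 : x ≤ h := Nat.le_ceil x
          have e3 : 5 * Real.log n ≤ A n / B * h := by
            have e4 : 5 * B * Real.log n ≤ A n * h :=
              hx.trans (mul_le_mul_of_nonneg_left e2 (hA n))
            rw [div_mul_eq_mul_div, le_div_iff₀ hB]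
            linarith
          linarith
  rw [gwn_apply]
  have hlow := size_lower hμ hc hc1 h0 h1 n hn
  have hpos : (0 : ℝ) < c ^ 2 / (n : ℝ) ^ 4 := by positivity
  calc (gw μ (hasSize n))⁻¹ * gw μ (hasSize n ∩ {ξ | x < (height ξ : ℝ)})
      ≤ (ENNReal.ofReal (c ^ 2 / (n : ℝ) ^ 4))⁻¹ * ENNReal.ofReal (((n : ℝ) ^ 5)⁻¹) := by
        gcongr
    _ = ENNReal.ofReal ((c ^ 2 / (n : ℝ) ^ 4)⁻¹ * ((n : ℝ) ^ 5)⁻¹) := by
        rw [← ENNReal.ofReal_inv_of_pos hpos, ENNReal.ofReal_mul (by positivity)]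
    _ = ENNReal.ofReal ((c ^ 2)⁻¹ / n) := by
        congr 1
        field_simp

/-- Q1 in full: for every positive `f` with `f n → ∞` there is a critical offspring distribution for
which `H(T_n) / (f(n) ln n)` is tight (and even tends to `0` in probability). -/
theorem result (f : ℕ → ℝ) (hpos : ∀ n, 1 ≤ n → 0 < f n) (hf : Tendsto f atTop atTop) :
    ∃ μ : PMF ℕ, Critical μ ∧ (∀ n, 1 ≤ n → gw μ (hasSize n) ≠ 0) ∧ HeightTight μ f ∧
      HeightSmall μ f := by
  obtain ⟨μ, B, c, hB, hc, hc1, hμ, h0, h1, hm⟩ :=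
    exists_offspring (AA f) (AA_nonneg hf) (AA_succ hf) (AA_tendsto hf)
  have hsize : ∀ n, 1 ≤ n → gw μ (hasSize n) ≠ 0 := by
    intro n hn
    have h2 := size_lower hμ hc hc1 h0 h1 n hn
    have hn' : (0 : ℝ) < n := by exact_mod_cast hn
    have : (0 : ℝ≥0∞) < ENNReal.ofReal (c ^ 2 / (n : ℝ) ^ 4) :=
      ENNReal.ofReal_pos.2 (by positivity)
    exact (lt_of_lt_of_le this h2).ne'
  -- the quantitative statement
  have hkey : ∀ δ : ℝ, 0 < δ → ∀ᶠ n : ℕ in atTop,
      gwn μ n {ξ | δ < |(height ξ : ℝ) / (f n * Real.log n)|} ≤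
        ENNReal.ofReal ((c ^ 2)⁻¹ / n) := by
    intro δ hδ
    have hsq : Tendsto (fun n => Real.sqrt (f n)) atTop atTop := Real.tendsto_sqrt_atTop.comp hf
    filter_upwards [hsq.eventually_ge_atTop (5 * B / δ), eventually_ge_atTop 2] with n hn hn2
    have hn1 : 1 ≤ n := by omega
    have hfn := hpos n hn1
    have hlog : 0 < Real.log n := Real.log_pos (by exact_mod_cast (by omega : 1 < n))
    have hfl : 0 < f n * Real.log n := mul_pos hfn hlog
    have hset : {ξ : List ℕ → ℕ | δ < |(height ξ : ℝ) / (f n * Real.log n)|} =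
        {ξ | δ * (f n * Real.log n) < (height ξ : ℝ)} := by
      ext ξ
      simp only [Set.mem_ofPred_eq]
      rw [abs_of_nonneg (div_nonneg (Nat.cast_nonneg _) hfl.le), lt_div_iff₀ hfl]
    rw [hset]
    refine key_estimate hμ hc hc1 hB h0 h1 (AA_nonneg hf) hm n hn1 _ ?_
    have e1 := le_AA hf n
    have hs : 0 < Real.sqrt (f n) := Real.sqrt_pos.2 hfn
    have e2 : Real.sqrt (f n) ≤ AA f n * f n := by
      have : (Real.sqrt (f n))⁻¹ * f n = Real.sqrt (f n) := by
        rw [inv_mul_eq_div]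
        exact Real.div_sqrt
      calc Real.sqrt (f n) = (Real.sqrt (f n))⁻¹ * f n := this.symm
        _ ≤ AA f n * f n := mul_le_mul_of_nonneg_right e1 hfn.le
    have e3 : 5 * B ≤ δ * (AA f n * f n) := by
      rw [div_le_iff₀ hδ] at hn
      nlinarith
    calc 5 * B * Real.log n ≤ (δ * (AA f n * f n)) * Real.log n :=
          mul_le_mul_of_nonneg_right e3 hlog.le
      _ = AA f n * (δ * (f n * Real.log n)) := by ring
  have hlim : Tendsto (fun n : ℕ => ENNReal.ofReal ((c ^ 2)⁻¹ / (n : ℝ))) atTop (𝓝 0) := by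
    rw [← ENNReal.ofReal_zero]
    exact ENNReal.tendsto_ofReal (tendsto_const_div_atTop_nhds_zero_nat _)
  refine ⟨μ, hμ, hsize, ?_, ?_⟩
  · intro ε hε
    obtain ⟨N, hN⟩ := eventually_atTop.1 ((hkey 1 one_pos).and (hlim.eventually_lt_const hε))
    -- a bound for the finitely many small `n`
    obtain ⟨K, hK⟩ : ∃ K : ℝ, ∀ n ∈ Finset.range N, |(n : ℝ) / (f n * Real.log n)| ≤ K := by
      obtain ⟨K, hK⟩ := ((Finset.range N).image
        (fun n : ℕ => |(n : ℝ) / (f n * Real.log n)|)).bddAbove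
      exact ⟨K, fun n hn => hK (Finset.mem_coe.2 (Finset.mem_image_of_mem _ hn))⟩
    refine ⟨max K 1, fun n hn1 hne => ?_⟩
    by_cases hn : N ≤ n
    · obtain ⟨e1, e2⟩ := hN n hn
      refine lt_of_le_of_lt (le_trans (measure_mono ?_) e1) e2
      intro ξ hξ
      exact lt_of_le_of_lt (le_max_right K 1) hξ
    · push Not at hn
      have e1 := hK n (Finset.mem_range.2 hn)
      have e2 : gwn μ n {ξ | max K 1 < |(height ξ : ℝ) / (f n * Real.log n)|} = 0 := by
        rw [gwn_apply]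
        have : hasSize n ∩ {ξ : List ℕ → ℕ | max K 1 < |(height ξ : ℝ) / (f n * Real.log n)|} =
            ∅ := by
          ext ξ
          simp only [Set.mem_inter_iff, Set.mem_ofPred_eq, Set.mem_empty_iff_false, iff_false,
            not_and, not_lt]
          intro h2
          have h3 := (height_lt h2).le
          refine le_trans ?_ (le_max_left K 1)
          refine le_trans ?_ e1
          rw [abs_div, abs_div]
          apply div_le_div_of_nonneg_right _ (abs_nonneg _)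
          rw [abs_of_nonneg (Nat.cast_nonneg _), abs_of_nonneg (Nat.cast_nonneg _)]
          exact_mod_cast h3
        rw [this, measure_empty, mul_zero]
      rw [e2]; exact hε
  · intro δ hδ
    refine Tendsto.mono_left ?_ inf_le_left
    exact tendsto_of_tendsto_of_tendsto_of_le_of_le' tendsto_const_nhds hlim
      (Eventually.of_forall fun _ => zero_le) (hkey δ hδ)

end Pool.Agent.Results.MP_d1698a_pr.EveryF
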