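import Mathlib

open MeasureTheory ProbabilityTheory Filter
open scoped ENNReal Topology

namespace Pool.Agent.Results.MP_d1698a_pr.HeightScales

noncomputable section

/-! ### Definitions used in the statement -/

/-- The rooted plane tree coded by offspring numbers `ξ`. Individuals are words over `ℕ`, the root
is the empty word, and the individual `v` has the `ξ v` children `v ++ [0], …, v ++ [ξ v - 1]`. A
word belongs to the tree when each of its ancestors `v ++ [i]` is one of the children of `v`. -/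
def tree (ξ : List ℕ → ℕ) : Set (List ℕ) :=
  {u | ∀ (v : List ℕ) (i : ℕ), (v ++ [i]) <+: u → i < ξ v}

/-- The number of vertices of the tree. -/
def size (ξ : List ℕ → ℕ) : ℕ∞ := (tree ξ).encard

/-- The height of a finite tree: the largest length of a word of the tree, that is, the largest
distance to the root. -/
def height (ξ : List ℕ → ℕ) : ℕ := sSup (List.length '' tree ξ)

/-- The law of the offspring numbers of a Galton-Watson tree: they are independent with law `μ`. -/
def gwLaw (μ : PMF ℕ) : Measure (List ℕ → ℕ) :=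
  Measure.infinitePi (fun _ : List ℕ => μ.toMeasure)

/-- The event that the tree has exactly `n` vertices. -/
def sizeEvent (n : ℕ) : Set (List ℕ → ℕ) := {ξ | size ξ = n}

/-- The law of the Galton-Watson tree conditioned to have exactly `n` vertices. -/
def condLaw (μ : PMF ℕ) (n : ℕ) : Measure (List ℕ → ℕ) := (gwLaw μ)[|sizeEvent n]

/-- Critical offspring law: mean one, and not the trivial law with `μ 1 = 1`. -/
def IsCritical (μ : PMF ℕ) : Prop := (∑' k : ℕ, (k : ℝ≥0∞) * μ k) = 1 ∧ μ 1 < 1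

/-- Tightness of `H(T_n) / (f n * log n)`, over all `n ≥ 1` for which `T_n` is defined. -/
def HeightTight (μ : PMF ℕ) (f : ℕ → ℝ) : Prop :=
  ∀ ε : ℝ≥0∞, 0 < ε → ∃ K : ℝ, ∀ n : ℕ, 1 ≤ n → 0 < gwLaw μ (sizeEvent n) →
    condLaw μ n {ξ | K < |(height ξ : ℝ) / (f n * Real.log n)|} < ε

/-- `H(T_n) / (f n * log n)` tends to zero in probability. -/
def HeightNegligible (μ : PMF ℕ) (f : ℕ → ℝ) : Prop :=
  ∀ δ : ℝ, 0 < δ →
    Tendsto (fun n : ℕ => condLaw μ n {ξ | δ < |(height ξ : ℝ) / (f n * Real.log n)|}) atTop (𝓝 0)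

end

/-! ### Development -/

noncomputable section

instance (μ : PMF ℕ) : IsProbabilityMeasure (gwLaw μ) := by
  unfold gwLaw; infer_instance

/-- Finite plane trees. -/
abbrev PT : Type := WType (fun k : ℕ => Fin k)

/-- Weight of a finite plane tree. -/
def wt (μ : ℕ → ℝ≥0∞) : PT → ℝ≥0∞
  | WType.mk k c => μ k * ∏ i : Fin k, wt μ (c i)

/-- number of vertices -/
def sz : PT → ℕ
  | WType.mk k c => 1 + ∑ i : Fin k, sz (c i)

/-- height -/
def ht : PT → ℕ
  | WType.mk k c => Finset.univ.sup (fun i : Fin k => ht (c i) + 1)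

/-- `ξ` codes the finite tree `t` -/
def Match : PT → (List ℕ → ℕ) → Prop
  | WType.mk k c => fun ξ => ξ [] = k ∧ ∀ i : Fin k, Match (c i) (fun v => ξ (i.1 :: v))

lemma mem_tree_nil (ξ : List ℕ → ℕ) : [] ∈ tree ξ := by
  intro v i h
  have := h.length_le
  simp at this

lemma mem_tree_cons (ξ : List ℕ → ℕ) (i : ℕ) (w : List ℕ) :
    (i :: w) ∈ tree ξ ↔ i < ξ [] ∧ w ∈ tree (fun v => ξ (i :: v)) := by
  constructor
  · intro h
    refine ⟨h [] i (by simp), ?_⟩
    intro v j hv
    exact h (i :: v) j (by simpa using hv)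
  · rintro ⟨h1, h2⟩ v j hv
    cases v with
    | nil =>
      simp at hv
      subst hv
      exact h1
    | cons a v =>
      simp at hv
      obtain ⟨rfl, hv⟩ := hv
      exact h2 v j hv

end

/-! #### part Tree -/

noncomputable section

/-- the set of vertices of a finite plane tree -/
def nodes : PT → Finset (List ℕ)
  | WType.mk k c =>
    insert [] (Finset.univ.biUnion (fun i : Fin k => (nodes (c i)).image (fun v => i.1 :: v)))

/-- offspring numbers of a finite plane tree -/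
def deg : PT → List ℕ → ℕ
  | WType.mk k _, [] => k
  | WType.mk k c, i :: w => if h : i < k then deg (c ⟨i, h⟩) w else 0

lemma mem_nodes_mk {k : ℕ} {c : Fin k → PT} {v : List ℕ} :
    v ∈ nodes (WType.mk k c) ↔ v = [] ∨ ∃ (i : Fin k) (w : List ℕ), w ∈ nodes (c i) ∧ v = i.1 :: w := by
  simp only [nodes, Finset.mem_insert, Finset.mem_biUnion, Finset.mem_univ, true_and,
    Finset.mem_image]
  constructor
  · rintro (h | ⟨i, w, hw, rfl⟩)
    · exact Or.inl h
    · exact Or.inr ⟨i, w, hw, rfl⟩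
  · rintro (h | ⟨i, w, hw, rfl⟩)
    · exact Or.inl h
    · exact Or.inr ⟨i, w, hw, rfl⟩

lemma match_iff (t : PT) : ∀ ξ : List ℕ → ℕ, Match t ξ ↔ ∀ v ∈ nodes t, ξ v = deg t v := by
  induction t with
  | mk k c ih =>
    intro ξ
    simp only [Match]
    constructor
    · rintro ⟨h1, h2⟩ v hv
      rw [mem_nodes_mk] at hv
      rcases hv with rfl | ⟨i, w, hw, rfl⟩
      · simpa [deg] using h1
      · have := (ih i _).1 (h2 i) w hw
        simpa [deg, i.2] using this
    · intro h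
      refine ⟨by simpa [deg] using h [] (by rw [mem_nodes_mk]; exact Or.inl rfl), ?_⟩
      intro i
      rw [ih i]
      intro w hw
      have := h (i.1 :: w) (by rw [mem_nodes_mk]; exact Or.inr ⟨i, w, hw, rfl⟩)
      simpa [deg, i.2] using this

lemma fold_nodes {M : Type*} [CommMonoid M] (F : List ℕ → M) (k : ℕ) (c : Fin k → PT) :
    ∏ v ∈ nodes (WType.mk k c), F v = F [] * ∏ i : Fin k, ∏ w ∈ nodes (c i), F (i.1 :: w) := by
  rw [nodes, Finset.prod_insert, Finset.prod_biUnion]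
  · congr 1
    apply Finset.prod_congr rfl
    intro i _
    rw [Finset.prod_image]
    intro a _ b _ hab
    simpa using hab
  · intro i _ j _ hij
    rw [Function.onFun, Finset.disjoint_left]
    intro v hv hv'
    simp only [Finset.mem_image] at hv hv'
    obtain ⟨w, _, rfl⟩ := hv
    obtain ⟨w', _, h⟩ := hv'
    simp at h
    exact hij (Fin.ext h.1.symm)
  · simp

lemma prod_nodes (μ : ℕ → ℝ≥0∞) (t : PT) : ∏ v ∈ nodes t, μ (deg t v) = wt μ t := by
  induction t with
  | mk k c ih =>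
    rw [fold_nodes (fun v => μ (deg (WType.mk k c) v)), wt]
    congr 1
    apply Finset.prod_congr rfl
    intro i _
    rw [← ih i]
    apply Finset.prod_congr rfl
    intro w _
    simp [deg, i.2]

lemma card_nodes (t : PT) : (nodes t).card = sz t := by
  induction t with
  | mk k c ih =>
    rw [Finset.card_eq_sum_ones]
    have := fold_nodes (M := Multiplicative ℕ) (fun _ => Multiplicative.ofAdd 1) k c
    have h2 : ∑ v ∈ nodes (WType.mk k c), 1 = 1 + ∑ i : Fin k, ∑ w ∈ nodes (c i), 1 := this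
    rw [h2, sz]
    congr 1
    apply Finset.sum_congr rfl
    intro i _
    rw [← ih i, Finset.card_eq_sum_ones]

lemma sup_nodes (t : PT) : (nodes t).sup List.length = ht t := by
  induction t with
  | mk k c ih =>
    rw [ht, nodes, Finset.sup_insert, Finset.sup_biUnion]
    simp only [List.length_nil, zero_le, sup_of_le_right]
    apply Finset.sup_congr rfl
    intro i _
    rw [← ih i, Finset.sup_image]
    apply le_antisymm
    · apply Finset.sup_le
      intro w hw
      simp only [Function.comp, List.length_cons]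
      have := Finset.le_sup (f := List.length) hw
      omega
    · obtain ⟨w, hw, hw2⟩ := Finset.exists_mem_eq_sup (nodes (c i)) (by
        cases c i with
        | mk k' c' => exact ⟨[], by rw [mem_nodes_mk]; exact Or.inl rfl⟩) List.length
      rw [hw2]
      exact Finset.le_sup (f := List.length ∘ fun v => i.1 :: v) hw

lemma tree_eq (t : PT) : ∀ ξ : List ℕ → ℕ, Match t ξ → tree ξ = ↑(nodes t) := by
  induction t with
  | mk k c ih =>
    intro ξ h
    obtain ⟨h1, h2⟩ := h
    ext v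
    rw [Finset.mem_coe, mem_nodes_mk]
    cases v with
    | nil => simp [mem_tree_nil]
    | cons i w =>
      rw [mem_tree_cons, h1]
      constructor
      · rintro ⟨hi, hw⟩
        right
        refine ⟨⟨i, hi⟩, w, ?_, rfl⟩
        have := ih ⟨i, hi⟩ _ (h2 ⟨i, hi⟩)
        rw [← Finset.mem_coe, ← this]
        exact hw
      · rintro (h | ⟨j, w', hw', h⟩)
        · simp at h
        · simp at h
          obtain ⟨rfl, rfl⟩ := h
          refine ⟨j.2, ?_⟩
          have := ih j _ (h2 j)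
          rw [this]
          exact hw'

lemma size_of_match {t : PT} {ξ : List ℕ → ℕ} (h : Match t ξ) : size ξ = sz t := by
  rw [size, tree_eq t ξ h, Set.encard_coe_eq_coe_finsetCard, card_nodes]

lemma height_of_match {t : PT} {ξ : List ℕ → ℕ} (h : Match t ξ) : height ξ = ht t := by
  rw [height, tree_eq t ξ h, ← sup_nodes]
  have hne : (nodes t).Nonempty := by
    cases t with
    | mk k' c' => exact ⟨[], by rw [mem_nodes_mk]; exact Or.inl rfl⟩
  rw [← Finset.coe_image]
  obtain ⟨w, hw, hw2⟩ := Finset.exists_mem_eq_sup (nodes t) hne List.length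
  have hne2 : ((Finset.image List.length (nodes t) : Finset ℕ) : Set ℕ).Nonempty :=
    Finset.coe_nonempty.2 (hne.image _)
  apply le_antisymm
  · apply csSup_le hne2
    intro b hb
    simp only [Finset.coe_image, Set.mem_image, Finset.mem_coe] at hb
    obtain ⟨v, hv, rfl⟩ := hb
    exact Finset.le_sup hv
  · rw [hw2]
    apply le_csSup (Finset.bddAbove _)
    simp only [Finset.coe_image, Set.mem_image, Finset.mem_coe]
    exact ⟨w, hw, rfl⟩

lemma exists_match_aux (h : ℕ) : ∀ ξ : List ℕ → ℕ, (∀ u ∈ tree ξ, u.length < h) → ∃ t, Match t ξ := by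
  induction h with
  | zero =>
    intro ξ hξ
    have := hξ [] (mem_tree_nil ξ)
    simp at this
  | succ h ih =>
    intro ξ hξ
    have : ∀ i : Fin (ξ []), ∃ t, Match t (fun v => ξ (i.1 :: v)) := by
      intro i
      apply ih
      intro u hu
      have := hξ (i.1 :: u) (by rw [mem_tree_cons]; exact ⟨i.2, hu⟩)
      simpa using this
    choose c hc using this
    exact ⟨WType.mk (ξ []) c, rfl, hc⟩

lemma exists_match {ξ : List ℕ → ℕ} (hf : (tree ξ).Finite) : ∃ t, Match t ξ := by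
  apply exists_match_aux (hf.toFinset.sup List.length + 1)
  intro u hu
  have := Finset.le_sup (f := List.length) (hf.mem_toFinset.2 hu)
  omega

lemma match_unique (t : PT) : ∀ (t' : PT) (ξ : List ℕ → ℕ), Match t ξ → Match t' ξ → t = t' := by
  induction t with
  | mk k c ih =>
    intro t' ξ h h'
    cases t' with
    | mk k' c' =>
      obtain ⟨h1, h2⟩ := h
      obtain ⟨h1', h2'⟩ := h'
      rw [h1] at h1'
      subst h1'
      congr 1
      funext i
      exact ih i _ _ (h2 i) (h2' i)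

lemma match_set_eq (t : PT) :
    {ξ : List ℕ → ℕ | Match t ξ} = Set.pi (↑(nodes t)) (fun v => {deg t v}) := by
  ext ξ
  simp [match_iff, Set.mem_pi]

lemma measurableSet_match (t : PT) : MeasurableSet {ξ : List ℕ → ℕ | Match t ξ} := by
  rw [match_set_eq]
  exact MeasurableSet.pi (Finset.countable_toSet _) (fun _ _ => MeasurableSet.singleton _)

lemma law_match (μ : PMF ℕ) (t : PT) : gwLaw μ {ξ | Match t ξ} = wt μ t := by
  rw [match_set_eq, gwLaw, Measure.infinitePi_pi]
  · rw [← prod_nodes]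
    apply Finset.prod_congr rfl
    intro v _
    rw [PMF.toMeasure_apply_singleton _ _ (MeasurableSet.singleton _)]
  · intro i _
    exact MeasurableSet.singleton _

/-- The law of the tree on the event that it is finite. -/
lemma law_eq (μ : PMF ℕ) (n : ℕ) (p : ℕ → Prop) :
    gwLaw μ (sizeEvent n ∩ {ξ | p (height ξ)}) =
      ∑' t : {t : PT // sz t = n ∧ p (ht t)}, wt μ t.1 := by
  have hU : sizeEvent n ∩ {ξ | p (height ξ)} =
      ⋃ t : {t : PT // sz t = n ∧ p (ht t)}, {ξ | Match t.1 ξ} := by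
    ext ξ
    simp only [sizeEvent, Set.mem_inter_iff, Set.mem_ofPred_eq, Set.mem_iUnion, Subtype.exists,
      exists_prop]
    constructor
    · rintro ⟨h1, h2⟩
      have hf : (tree ξ).Finite := by
        rw [← Set.encard_lt_top_iff]
        change size ξ < ⊤
        rw [h1]
        exact ENat.natCast_lt_top n
      obtain ⟨t, ht⟩ := exists_match hf
      refine ⟨t, ⟨?_, ?_⟩, ht⟩
      · have := size_of_match ht
        rw [h1] at this
        exact_mod_cast this.symm
      · rw [← height_of_match ht]; exact h2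
    · rintro ⟨t, ⟨h1, h2⟩, h3⟩
      rw [size_of_match h3, height_of_match h3, h1]
      exact ⟨rfl, h2⟩
  rw [hU, measure_iUnion]
  · exact tsum_congr (fun t => law_match μ t.1)
  · intro s t hst
    rw [Function.onFun, Set.disjoint_left]
    intro ξ h1 h2
    exact hst (Subtype.ext (match_unique s.1 t.1 ξ h1 h2))
  · exact fun t => measurableSet_match t.1

lemma measurableSet_sizeEvent (n : ℕ) (p : ℕ → Prop) :
    MeasurableSet (sizeEvent n ∩ {ξ | p (height ξ)}) := by
  have hU : sizeEvent n ∩ {ξ | p (height ξ)} =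
      ⋃ t : {t : PT // sz t = n ∧ p (ht t)}, {ξ | Match t.1 ξ} := by
    ext ξ
    simp only [sizeEvent, Set.mem_inter_iff, Set.mem_ofPred_eq, Set.mem_iUnion, Subtype.exists,
      exists_prop]
    constructor
    · rintro ⟨h1, h2⟩
      have hf : (tree ξ).Finite := by
        rw [← Set.encard_lt_top_iff]
        change size ξ < ⊤
        rw [h1]
        exact ENat.natCast_lt_top n
      obtain ⟨t, ht⟩ := exists_match hf
      refine ⟨t, ⟨?_, ?_⟩, ht⟩
      · have := size_of_match ht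
        rw [h1] at this
        exact_mod_cast this.symm
      · rw [← height_of_match ht]; exact h2
    · rintro ⟨t, ⟨h1, h2⟩, h3⟩
      rw [size_of_match h3, height_of_match h3, h1]
      exact ⟨rfl, h2⟩
  rw [hU]
  exact MeasurableSet.iUnion (fun t => measurableSet_match t.1)

lemma tsum_wt_le_one (μ : PMF ℕ) : ∑' t : PT, wt μ t ≤ 1 := by
  have : ∑' t : PT, wt μ t = gwLaw μ (⋃ t : PT, {ξ | Match t ξ}) := by
    rw [measure_iUnion]
    · exact tsum_congr (fun t => (law_match μ t).symm)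
    · intro s t hst
      rw [Function.onFun, Set.disjoint_left]
      intro ξ h1 h2
      exact hst (match_unique s t ξ h1 h2)
    · exact fun t => measurableSet_match t
  rw [this]
  exact prob_le_one

end

/-! #### part Sum -/

noncomputable section

lemma tsum_PT (F : PT → ℝ≥0∞) :
    ∑' t : PT, F t = ∑' k : ℕ, ∑' c : Fin k → PT, F (WType.mk k c) := by
  rw [← (WType.equivSigma (fun k : ℕ => Fin k)).symm.tsum_eq, ENNReal.tsum_sigma']
  rfl

lemma tsum_cons (k : ℕ) (F : (Fin (k + 1) → PT) → ℝ≥0∞) :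
    ∑' c, F c = ∑' t : PT, ∑' c : Fin k → PT, F (Fin.cons t c) := by
  rw [← (Fin.consEquiv (fun _ : Fin (k + 1) => PT)).tsum_eq, ENNReal.tsum_prod']
  rfl

lemma tsum_append (j k : ℕ) (F : (Fin (j + k) → PT) → ℝ≥0∞) :
    ∑' c, F c = ∑' d : Fin j → PT, ∑' c : Fin k → PT, F (Fin.append d c) := by
  rw [← (Fin.appendEquiv (α := PT) j k).tsum_eq, ENNReal.tsum_prod']
  rfl

lemma tsum_fin_zero (F : (Fin 0 → PT) → ℝ≥0∞) : ∑' c, F c = F (fun i => i.elim0) := by
  rw [tsum_eq_single (fun i => i.elim0)]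
  intro b hb
  exact absurd (Subsingleton.elim _ _) hb

lemma tsum_prod_pow (g : PT → ℝ≥0∞) (k : ℕ) :
    ∑' c : Fin k → PT, ∏ i, g (c i) = (∑' t, g t) ^ k := by
  induction k with
  | zero => rw [tsum_fin_zero]; simp
  | succ k ih =>
    rw [tsum_cons]
    simp only [Fin.prod_univ_succ, Fin.cons_zero, Fin.cons_succ]
    simp only [ENNReal.tsum_mul_left, ENNReal.tsum_mul_right, ih]
    rw [pow_succ, mul_comm]

lemma sz_pos (t : PT) : 1 ≤ sz t := by
  cases t with
  | mk k c => rw [sz]; omega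

/-- weight of the forests of `k` trees with `m` vertices in total -/
def Z (μ : ℕ → ℝ≥0∞) (k m : ℕ) : ℝ≥0∞ :=
  ∑' c : Fin k → PT, if ∑ i, sz (c i) = m then ∏ i, wt μ (c i) else 0

lemma Z_zero_zero (μ : ℕ → ℝ≥0∞) : Z μ 0 0 = 1 := by
  rw [Z, tsum_fin_zero]; simp

lemma Z_eq_zero (μ : ℕ → ℝ≥0∞) {k m : ℕ} (h : m < k) : Z μ k m = 0 := by
  rw [Z, ENNReal.tsum_eq_zero]
  intro c
  rw [if_neg]
  intro hc
  have : ∑ i : Fin k, 1 ≤ ∑ i, sz (c i) := Finset.sum_le_sum (fun i _ => sz_pos (c i))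
  simp at this
  omega

lemma Z_zero_pos (μ : ℕ → ℝ≥0∞) {m : ℕ} (h : 0 < m) : Z μ 0 m = 0 := by
  rw [Z, tsum_fin_zero, if_neg]
  simp; omega

lemma Z_succ (μ : ℕ → ℝ≥0∞) (k m : ℕ) :
    Z μ (k + 1) (m + 1) = ∑' j, μ j * Z μ (j + k) m := by
  rw [Z, tsum_cons, tsum_PT]
  apply tsum_congr
  intro j
  rw [Z, tsum_append, ← ENNReal.tsum_mul_left]
  apply tsum_congr
  intro d
  rw [← ENNReal.tsum_mul_left]
  apply tsum_congr
  intro c
  simp only [Fin.sum_univ_succ, Fin.prod_univ_succ, Fin.cons_zero, Fin.cons_succ, sz, wt,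
    Fin.sum_univ_add, Fin.prod_univ_add, Fin.append_left, Fin.append_right]
  by_cases h : ∑ i, sz (d i) + ∑ i, sz (c i) = m
  · rw [if_pos h, if_pos (by omega), mul_assoc]
  · rw [if_neg h, if_neg (by omega), mul_zero]

lemma tsum_sub (P : PT → Prop) (F : PT → ℝ≥0∞) :
    ∑' t : {t : PT // P t}, F t.1 = ∑' t, Set.indicator {t | P t} F t :=
  tsum_subtype (s := {t | P t}) F

lemma law_size (μ : PMF ℕ) (n : ℕ) : gwLaw μ (sizeEvent n) = Z μ 1 n := by
  have h := law_eq μ n (fun _ => True)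
  simp only [Set.ofPred_true, Set.inter_univ] at h
  rw [h, Z]
  rw [tsum_cons]
  simp only [tsum_fin_zero]
  rw [tsum_sub (fun t => sz t = n ∧ True)]
  apply tsum_congr
  intro t
  simp [Set.indicator_apply]

/-- weight of the trees of height less than `h` -/
def Q (μ : ℕ → ℝ≥0∞) (h : ℕ) : ℝ≥0∞ := ∑' t : PT, if ht t < h then wt μ t else 0

lemma Q_zero (μ : ℕ → ℝ≥0∞) : Q μ 0 = 0 := by
  rw [Q, ENNReal.tsum_eq_zero]
  intro t
  simp

lemma Q_succ (μ : ℕ → ℝ≥0∞) (h : ℕ) : Q μ (h + 1) = ∑' k, μ k * Q μ h ^ k := by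
  rw [Q, tsum_PT]
  apply tsum_congr
  intro k
  rw [Q, ← tsum_prod_pow, ← ENNReal.tsum_mul_left]
  apply tsum_congr
  intro c
  have hiff : ht (WType.mk k c) < h + 1 ↔ ∀ i, ht (c i) < h := by
    rw [ht, Finset.sup_lt_iff (by simp)]
    simp
  by_cases hc : ∀ i, ht (c i) < h
  · rw [if_pos (hiff.2 hc), wt]
    congr 1
    apply Finset.prod_congr rfl
    intro i _
    rw [if_pos (hc i)]
  · rw [if_neg (fun h' => hc (hiff.1 h'))]
    push Not at hc
    obtain ⟨i, hi⟩ := hc
    rw [Finset.prod_eq_zero (Finset.mem_univ i), mul_zero]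
    rw [if_neg (by omega)]

lemma law_height (μ : PMF ℕ) (n : ℕ) (p : ℕ → Prop) (h : ℕ) (hp : ∀ x, p x → h ≤ x) :
    gwLaw μ (sizeEvent n ∩ {ξ | p (height ξ)}) + Q μ h ≤ 1 := by
  classical
  rw [law_eq]
  refine le_trans ?_ (tsum_wt_le_one μ)
  rw [tsum_sub (fun t : PT => sz t = n ∧ p (ht t)), Q, ← ENNReal.tsum_add]
  apply ENNReal.tsum_le_tsum
  intro t
  by_cases h1 : sz t = n ∧ p (ht t)
  · have := hp _ h1.2
    rw [if_neg (by omega), add_zero]
    exact Set.indicator_le_self _ _ _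
  · rw [Set.indicator_of_notMem (by exact h1), zero_add]
    split_ifs
    · exact le_rfl
    · exact zero_le

end

/-! #### part Lower -/

noncomputable section

/-- first moment of the number of trees -/
def Mo (μ : ℕ → ℝ≥0∞) (m : ℕ) : ℝ≥0∞ := ∑' k : ℕ, (k : ℝ≥0∞) * Z μ k m

lemma tsum_shift (j : ℕ) (G : ℕ → ℝ≥0∞) (hG : ∀ l < j, G l = 0) :
    ∑' l, G l = ∑' k, G (k + j) := by
  have h := Summable.sum_add_tsum_nat_add' (f := G) (k := j) ENNReal.summable
  rw [← h, Finset.sum_eq_zero, zero_add]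
  intro l hl
  exact hG l (Finset.mem_range.1 hl)

lemma drift (μ : ℕ → ℝ≥0∞) (h1 : ∑' k, μ k = 1) (h2 : ∑' k : ℕ, (k : ℝ≥0∞) * μ k = 1) (l : ℕ) :
    (l : ℝ≥0∞) ≤ ∑' j, ((l + 1 - j : ℕ) : ℝ≥0∞) * μ j := by
  have key : (l : ℝ≥0∞) + 1 ≤ (∑' j, ((l + 1 - j : ℕ) : ℝ≥0∞) * μ j) + 1 := by
    calc (l : ℝ≥0∞) + 1 = ∑' j, ((l + 1 : ℕ) : ℝ≥0∞) * μ j := by
          rw [ENNReal.tsum_mul_left, h1, mul_one]; push_cast; rfl
      _ ≤ ∑' j, (((l + 1 - j : ℕ) : ℝ≥0∞) * μ j + (j : ℝ≥0∞) * μ j) := by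
          apply ENNReal.tsum_le_tsum
          intro j
          rw [← add_mul]
          apply mul_le_mul_left
          rw [← Nat.cast_add]
          exact_mod_cast (by omega : l + 1 ≤ l + 1 - j + j)
      _ = _ := by rw [ENNReal.tsum_add, h2]
  exact (ENNReal.add_le_add_iff_right ENNReal.one_ne_top).1 key

lemma Mo_succ (μ : ℕ → ℝ≥0∞) (h1 : ∑' k, μ k = 1) (h2 : ∑' k : ℕ, (k : ℝ≥0∞) * μ k = 1) (m : ℕ) :
    Mo μ m ≤ Mo μ (m + 1) := by
  have e1 : Mo μ (m + 1) = ∑' k : ℕ, ((k + 1 : ℕ) : ℝ≥0∞) * Z μ (k + 1) (m + 1) := by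
    rw [Mo, tsum_shift 1]
    intro l hl
    have : l = 0 := by omega
    subst this
    simp
  calc Mo μ m ≤ ∑' l : ℕ, (∑' j, ((l + 1 - j : ℕ) : ℝ≥0∞) * μ j) * Z μ l m := by
        rw [Mo]
        apply ENNReal.tsum_le_tsum
        intro l
        exact mul_le_mul_left (drift μ h1 h2 l) _
    _ = ∑' l : ℕ, ∑' j : ℕ, μ j * (((l + 1 - j : ℕ) : ℝ≥0∞) * Z μ l m) := by
        apply tsum_congr
        intro l
        rw [← ENNReal.tsum_mul_right]
        apply tsum_congr
        intro j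
        ring
    _ = ∑' j : ℕ, μ j * ∑' l : ℕ, (((l + 1 - j : ℕ) : ℝ≥0∞) * Z μ l m) := by
        rw [ENNReal.tsum_comm]
        apply tsum_congr
        intro j
        rw [ENNReal.tsum_mul_left]
    _ = ∑' j : ℕ, μ j * ∑' k : ℕ, (((k + 1 : ℕ) : ℝ≥0∞) * Z μ (j + k) m) := by
        apply tsum_congr
        intro j
        congr 1
        rw [tsum_shift j]
        · apply tsum_congr
          intro k
          rw [show k + j + 1 - j = k + 1 by omega, add_comm k j]
        · intro l hl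
          rw [show l + 1 - j = 0 by omega]
          simp
    _ = Mo μ (m + 1) := by
        rw [e1]
        simp only [Z_succ, ← ENNReal.tsum_mul_left]
        rw [ENNReal.tsum_comm]
        apply tsum_congr
        intro k
        apply tsum_congr
        intro j
        ring

lemma Mo_one (μ : ℕ → ℝ≥0∞) : μ 0 ≤ Mo μ 1 := by
  calc μ 0 = μ 0 * Z μ (0 + 0) 0 := by rw [Nat.add_zero, Z_zero_zero, mul_one]
    _ ≤ ∑' j, μ j * Z μ (j + 0) 0 := ENNReal.le_tsum 0
    _ = ((1 : ℕ) : ℝ≥0∞) * Z μ 1 1 := by rw [← Z_succ]; simp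
    _ ≤ Mo μ 1 := ENNReal.le_tsum (f := fun k : ℕ => (k : ℝ≥0∞) * Z μ k 1) 1

lemma Mo_lower (μ : ℕ → ℝ≥0∞) (h1 : ∑' k, μ k = 1) (h2 : ∑' k : ℕ, (k : ℝ≥0∞) * μ k = 1)
    (m : ℕ) : μ 0 ≤ Mo μ (m + 1) := by
  induction m with
  | zero => exact Mo_one μ
  | succ m ih => exact ih.trans (Mo_succ μ h1 h2 (m + 1))

lemma Z_lower (μ : ℕ → ℝ≥0∞) (h1 : ∑' k, μ k = 1) (h2 : ∑' k : ℕ, (k : ℝ≥0∞) * μ k = 1)
    (m : ℕ) (b : ℝ≥0∞) (hb : ∀ j, 1 ≤ j → j ≤ m + 1 → b ≤ μ j) :
    b * μ 0 ≤ ((m + 1 : ℕ) : ℝ≥0∞) * Z μ 1 (m + 2) := by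
  calc b * μ 0 ≤ b * Mo μ (m + 1) := mul_le_mul_right (Mo_lower μ h1 h2 m) _
    _ = ∑' k : ℕ, b * ((k : ℝ≥0∞) * Z μ k (m + 1)) := by rw [Mo, ENNReal.tsum_mul_left]
    _ ≤ ∑' k : ℕ, ((m + 1 : ℕ) : ℝ≥0∞) * (μ k * Z μ k (m + 1)) := by
        apply ENNReal.tsum_le_tsum
        intro k
        rcases Nat.eq_zero_or_pos k with rfl | hk
        · simp
        rcases Nat.lt_or_ge (m + 1) k with h | h
        · rw [Z_eq_zero μ h]; simp
        · calc b * ((k : ℝ≥0∞) * Z μ k (m + 1)) ≤ μ k * (((m + 1 : ℕ) : ℝ≥0∞) * Z μ k (m + 1)) := by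
                gcongr
                exact hb k hk h
            _ = _ := by ring
    _ = ((m + 1 : ℕ) : ℝ≥0∞) * Z μ 1 (m + 2) := by
        rw [ENNReal.tsum_mul_left]
        congr 1
        rw [show (1 : ℕ) = 0 + 1 from rfl, Z_succ]
        simp

end

/-! #### part Mu -/

noncomputable section

/-- data: an antitone null sequence starting at one with a polynomial lower bound on the
increments -/
structure Env (v : ℕ → ℝ) : Prop where
  zero : v 0 = 1
  anti : Antitone v
  lim : Tendsto v atTop (𝓝 0)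
  inc : ∀ k : ℕ, 1 / (2 * ((k : ℝ) + 1) * ((k : ℝ) + 2)) ≤ v k - v (k + 1)

variable {v : ℕ → ℝ}

lemma Env.nonneg (h : Env v) (n : ℕ) : 0 ≤ v n :=
  h.anti.le_of_tendsto h.lim n

lemma Env.w_pos (h : Env v) (k : ℕ) : 0 < v k - v (k + 1) :=
  lt_of_lt_of_le (by positivity) (h.inc k)

lemma sum_w (v : ℕ → ℝ) (n : ℕ) : ∑ k ∈ Finset.range n, (v k - v (k + 1)) = v 0 - v n := by
  rw [Finset.sum_range_sub']

lemma Env.hasSum_w (h : Env v) : HasSum (fun k => v k - v (k + 1)) 1 := by
  rw [hasSum_iff_tendsto_nat_of_nonneg (fun k => (h.w_pos k).le)]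
  simp only [sum_w, h.zero]
  simpa using tendsto_const_nhds.sub h.lim

/-- the nonzero part of the offspring law -/
def mm (v : ℕ → ℝ) (k : ℕ) : ℝ := (v k - v (k + 1)) / ((k : ℝ) + 1)

lemma Env.mm_pos (h : Env v) (k : ℕ) : 0 < mm v k := by
  unfold mm
  have := h.w_pos k
  positivity

lemma Env.mm_le (h : Env v) (k : ℕ) : mm v k ≤ v k - v (k + 1) := by
  unfold mm
  apply div_le_self (h.w_pos k).le
  linarith [Nat.cast_nonneg (α := ℝ) k]

lemma Env.summable_mm (h : Env v) : Summable (mm v) :=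
  Summable.of_nonneg_of_le (fun k => (h.mm_pos k).le) h.mm_le h.hasSum_w.summable

lemma Env.tsum_mm_lt (h : Env v) : ∑' k, mm v k < 1 := by
  rw [← h.hasSum_w.tsum_eq]
  apply Summable.tsum_lt_tsum (i := 1) h.mm_le _ h.summable_mm h.hasSum_w.summable
  unfold mm
  have := h.w_pos 1
  norm_num at this ⊢
  linarith

/-- the offspring law in real numbers -/
def nu (v : ℕ → ℝ) : ℕ → ℝ
  | 0 => 1 - ∑' k, mm v k
  | k + 1 => mm v k

lemma Env.nu_pos (h : Env v) (k : ℕ) : 0 < nu v k := by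
  cases k with
  | zero => simpa [nu] using h.tsum_mm_lt
  | succ k => exact h.mm_pos k

lemma Env.hasSum_nu (h : Env v) : HasSum (nu v) 1 := by
  have h1 : HasSum (fun k => nu v (k + 1)) (∑' k, mm v k) := h.summable_mm.hasSum
  have := (hasSum_nat_add_iff (f := nu v) 1).1 h1
  simpa [nu] using this

lemma Env.hasSum_mean (h : Env v) : HasSum (fun k : ℕ => (k : ℝ) * nu v k) 1 := by
  have h1 : HasSum (fun k : ℕ => ((k + 1 : ℕ) : ℝ) * nu v (k + 1)) 1 := by
    refine h.hasSum_w.congr_fun ?_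
    intro k
    simp only [nu, mm]
    push_cast
    field_simp
  have := (hasSum_nat_add_iff (f := fun k : ℕ => (k : ℝ) * nu v k) 1).1 h1
  simpa using this

/-- the offspring law -/
def off (v : ℕ → ℝ) (h : Env v) : PMF ℕ :=
  ⟨fun k => ENNReal.ofReal (nu v k), by
    have := h.hasSum_nu
    have h2 : ∑' k, ENNReal.ofReal (nu v k) = 1 := by
      rw [← ENNReal.ofReal_tsum_of_nonneg (fun k => (h.nu_pos k).le) this.summable, this.tsum_eq]
      simp
    rw [← h2]
    exact ENNReal.summable.hasSum⟩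

lemma off_apply (h : Env v) (k : ℕ) : off v h k = ENNReal.ofReal (nu v k) := rfl

lemma off_critical (h : Env v) : IsCritical (off v h) := by
  refine ⟨?_, ?_⟩
  · have e : ∀ k : ℕ, (k : ℝ≥0∞) * off v h k = ENNReal.ofReal ((k : ℝ) * nu v k) := by
      intro k
      rw [off_apply, ENNReal.ofReal_mul (by positivity), ENNReal.ofReal_natCast]
    simp only [e]
    rw [← ENNReal.ofReal_tsum_of_nonneg _ h.hasSum_mean.summable, h.hasSum_mean.tsum_eq]
    · simp
    · intro k
      have := h.nu_pos k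
      positivity
  · rw [off_apply, ← ENNReal.ofReal_one]
    apply (ENNReal.ofReal_lt_ofReal_iff one_pos).2
    have h1 := h.hasSum_nu
    have h2 : nu v 0 + nu v 1 ≤ 1 := by
      have := h1.summable.sum_le_tsum (Finset.range 2) (fun k _ => (h.nu_pos k).le)
      rw [h1.tsum_eq] at this
      simpa [Finset.sum_range_succ] using this
    linarith [h.nu_pos 0]

lemma off_lower (h : Env v) (n j : ℕ) (h1 : 1 ≤ j) (h2 : j + 1 ≤ n) :
    ENNReal.ofReal (1 / (2 * (n : ℝ) ^ 3)) ≤ off v h j := by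
  rw [off_apply]
  apply ENNReal.ofReal_le_ofReal
  obtain ⟨k, rfl⟩ : ∃ k, j = k + 1 := ⟨j - 1, by omega⟩
  have h3 := h.inc k
  simp only [nu, mm]
  rw [le_div_iff₀ (by positivity)]
  refine le_trans ?_ h3
  have hn : (k : ℝ) + 2 ≤ n := by exact_mod_cast h2
  have hk : (0 : ℝ) ≤ k := Nat.cast_nonneg k
  have hn0 : (0 : ℝ) < n := by linarith
  rw [div_mul_eq_mul_div, one_mul, div_le_div_iff₀ (by positivity) (by positivity)]
  have e1 : (k : ℝ) + 1 ≤ n := by linarith
  calc ((k : ℝ) + 1) * (2 * ((k : ℝ) + 1) * ((k : ℝ) + 2)) ≤ (n : ℝ) * (2 * (n : ℝ) * n) := by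
        gcongr
    _ = 1 * (2 * (n : ℝ) ^ 3) := by ring

lemma step_aux (h : Env v) (q : ℝ) (hq0 : 0 ≤ q) (hq1 : q ≤ 1) (N : ℕ) (hN : 2 ≤ (N : ℝ) * q)
    (n : ℕ) :
    ∑ k ∈ Finset.range n, mm v k * (1 - (1 - q) ^ (k + 1)) ≤ q * (1 - v N / 2) := by
  have hb : ∀ k, mm v k * (1 - (1 - q) ^ (k + 1)) ≤ q * (v k - v (k + 1)) := by
    intro k
    have h1 : 1 - (1 - q) ^ (k + 1) ≤ ((k : ℝ) + 1) * q := by
      have := one_add_mul_le_pow (a := -q) (by linarith) (k + 1)
      push_cast at this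
      have e : (1 + -q) = 1 - q := by ring
      rw [e] at this
      linarith
    calc mm v k * (1 - (1 - q) ^ (k + 1)) ≤ mm v k * (((k : ℝ) + 1) * q) :=
          mul_le_mul_of_nonneg_left h1 (h.mm_pos k).le
      _ = q * (v k - v (k + 1)) := by unfold mm; field_simp
  have hb2 : ∀ k, N ≤ k → mm v k * (1 - (1 - q) ^ (k + 1)) ≤ q / 2 * (v k - v (k + 1)) := by
    intro k hk
    have h1 : 1 - (1 - q) ^ (k + 1) ≤ 1 := by
      have : 0 ≤ (1 - q) ^ (k + 1) := pow_nonneg (by linarith) _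
      linarith
    have h2 : 1 ≤ q / 2 * ((k : ℝ) + 1) := by
      have : (N : ℝ) ≤ k := by exact_mod_cast hk
      nlinarith
    calc mm v k * (1 - (1 - q) ^ (k + 1)) ≤ mm v k * (q / 2 * ((k : ℝ) + 1)) :=
          mul_le_mul_of_nonneg_left (h1.trans h2) (h.mm_pos k).le
      _ = q / 2 * (v k - v (k + 1)) := by unfold mm; field_simp
  rcases le_total n N with hn | hn
  · calc ∑ k ∈ Finset.range n, mm v k * (1 - (1 - q) ^ (k + 1))
        ≤ ∑ k ∈ Finset.range n, q * (v k - v (k + 1)) := Finset.sum_le_sum (fun k _ => hb k)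
      _ = q * (1 - v n) := by rw [← Finset.mul_sum, sum_w, h.zero]
      _ ≤ q * (1 - v N / 2) := by
          have := h.anti hn
          have h0 := h.nonneg N
          apply mul_le_mul_of_nonneg_left _ hq0
          linarith
  · have hmain : ∑ k ∈ Finset.range n, mm v k * (1 - (1 - q) ^ (k + 1)) ≤
        q * (1 - v N) + q / 2 * (v N - v n) := by
      induction n, hn using Nat.le_induction with
      | base =>
        calc ∑ k ∈ Finset.range N, mm v k * (1 - (1 - q) ^ (k + 1))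
            ≤ ∑ k ∈ Finset.range N, q * (v k - v (k + 1)) := Finset.sum_le_sum (fun k _ => hb k)
          _ = q * (1 - v N) := by rw [← Finset.mul_sum, sum_w, h.zero]
          _ = _ := by ring
      | succ n hn ih =>
        rw [Finset.sum_range_succ]
        have := hb2 n hn
        linarith
    have h0 := h.nonneg n
    have h3 : 0 ≤ q * v n := mul_nonneg hq0 h0
    linarith

/-- one step of the recursion for the probability of survival -/
lemma step (h : Env v) (q : ℝ) (hq0 : 0 ≤ q) (hq1 : q ≤ 1) (N : ℕ) (hN : 2 ≤ (N : ℝ) * q) :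
    1 - ∑' k, nu v k * (1 - q) ^ k ≤ q * (1 - v N / 2) := by
  have hs : Summable (fun k => nu v k * (1 - q) ^ k) := by
    refine Summable.of_nonneg_of_le (fun k => ?_) (fun k => ?_) h.hasSum_nu.summable
    · exact mul_nonneg (h.nu_pos k).le (pow_nonneg (by linarith) _)
    · apply mul_le_of_le_one_right (h.nu_pos k).le
      exact pow_le_one₀ (by linarith) (by linarith)
  have e1 : 1 - ∑' k, nu v k * (1 - q) ^ k = ∑' k, mm v k * (1 - (1 - q) ^ (k + 1)) := by
    have e0 : 1 - ∑' k, nu v k * (1 - q) ^ k = ∑' k, (nu v k - nu v k * (1 - q) ^ k) := by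
      rw [h.hasSum_nu.summable.tsum_sub hs, h.hasSum_nu.tsum_eq]
    rw [e0]
    have hs2 : Summable (fun k => nu v k - nu v k * (1 - q) ^ k) :=
      h.hasSum_nu.summable.sub hs
    rw [hs2.tsum_eq_zero_add]
    simp only [pow_zero, mul_one, sub_self, zero_add]
    apply tsum_congr
    intro k
    simp only [nu]
    ring
  rw [e1]
  apply Real.tsum_le_of_sum_range_le
  · intro k
    apply mul_nonneg (h.mm_pos k).le
    have : (1 - q) ^ (k + 1) ≤ 1 := pow_le_one₀ (by linarith) (by linarith)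
    linarith
  · exact step_aux h q hq0 hq1 N hN

end

/-! #### part Final -/

noncomputable section

lemma ht_lt_sz (t : PT) : ht t < sz t := by
  induction t with
  | mk k c ih =>
    rw [ht, sz, Finset.sup_lt_iff (by simp)]
    intro i _
    have h1 := ih i
    have h2 : sz (c i) ≤ ∑ j : Fin k, sz (c j) :=
      Finset.single_le_sum (f := fun j => sz (c j)) (fun _ _ => Nat.zero_le _) (Finset.mem_univ i)
    omega

lemma height_lt {n : ℕ} {ξ : List ℕ → ℕ} (h : ξ ∈ sizeEvent n) : height ξ < n := by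
  have h1 : size ξ = n := h
  have hf : (tree ξ).Finite := by
    rw [← Set.encard_lt_top_iff]
    change size ξ < ⊤
    rw [h1]
    exact ENat.natCast_lt_top n
  obtain ⟨t, ht'⟩ := exists_match hf
  rw [height_of_match ht']
  have h2 := size_of_match ht'
  rw [h1] at h2
  have h3 : n = sz t := by exact_mod_cast h2
  rw [h3]
  exact ht_lt_sz t

variable {v : ℕ → ℝ}

/-- survival probability -/
def qq (v : ℕ → ℝ) (h : Env v) (n : ℕ) : ℝ := 1 - (Q (off v h) n).toReal

lemma Q_le_one (μ : PMF ℕ) (n : ℕ) : Q μ n ≤ 1 := by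
  refine le_trans ?_ (tsum_wt_le_one μ)
  apply ENNReal.tsum_le_tsum
  intro t
  split_ifs
  · exact le_rfl
  · exact zero_le

lemma Q_mono (μ : PMF ℕ) (n : ℕ) : Q μ n ≤ Q μ (n + 1) := by
  apply ENNReal.tsum_le_tsum
  intro t
  by_cases h : ht t < n
  · rw [if_pos h, if_pos (by omega)]
  · rw [if_neg h]; exact zero_le

lemma qq_zero (h : Env v) : qq v h 0 = 1 := by
  simp [qq, Q_zero]

lemma qq_nonneg (h : Env v) (n : ℕ) : 0 ≤ qq v h n := by
  unfold qq
  have := ENNReal.toReal_mono ENNReal.one_ne_top (Q_le_one (off v h) n)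
  simp at this
  linarith

lemma qq_le_one (h : Env v) (n : ℕ) : qq v h n ≤ 1 := by
  unfold qq
  linarith [ENNReal.toReal_nonneg (a := Q (off v h) n)]

lemma qq_anti (h : Env v) (n : ℕ) : qq v h (n + 1) ≤ qq v h n := by
  unfold qq
  have := ENNReal.toReal_mono (ne_top_of_le_ne_top ENNReal.one_ne_top (Q_le_one (off v h) (n + 1)))
    (Q_mono (off v h) n)
  linarith

lemma qq_succ (h : Env v) (n : ℕ) :
    qq v h (n + 1) = 1 - ∑' k, nu v k * (1 - qq v h n) ^ k := by
  have hQ : Q (off v h) n ≠ ⊤ := ne_top_of_le_ne_top ENNReal.one_ne_top (Q_le_one (off v h) n)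
  have e : (1 - qq v h n) = (Q (off v h) n).toReal := by unfold qq; ring
  rw [e]
  conv_lhs => rw [qq, Q_succ]
  rw [ENNReal.tsum_toReal_eq]
  · congr 1
    apply tsum_congr
    intro k
    rw [ENNReal.toReal_mul, ENNReal.toReal_pow, off_apply, ENNReal.toReal_ofReal (h.nu_pos k).le]
  · intro k
    exact ENNReal.mul_ne_top (by rw [off_apply]; exact ENNReal.ofReal_ne_top) (ENNReal.pow_ne_top hQ)

lemma qq_bound (h : Env v) (N : ℕ) (x : ℝ) (hN : 2 ≤ (N : ℝ) * x) (n : ℕ) :
    qq v h n ≤ max x ((1 - v N / 2) ^ n) := by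
  have hv0 := h.nonneg N
  have hv1 : v N ≤ 1 := by rw [← h.zero]; exact h.anti (Nat.zero_le N)
  induction n with
  | zero => rw [qq_zero]; simp
  | succ n ih =>
    rcases lt_or_ge (qq v h n) x with hlt | hge
    · exact ((qq_anti h n).trans hlt.le).trans (le_max_left _ _)
    · have h1 : 2 ≤ (N : ℝ) * qq v h n :=
        hN.trans (mul_le_mul_of_nonneg_left hge (Nat.cast_nonneg N))
      have h2 := step h (qq v h n) (qq_nonneg h n) (qq_le_one h n) N h1
      rw [← qq_succ] at h2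
      rcases le_max_iff.1 ih with h3 | h3
      · exact ((qq_anti h n).trans h3).trans (le_max_left _ _)
      · refine (h2.trans ?_).trans (le_max_right _ _)
        rw [pow_succ]
        exact mul_le_mul_of_nonneg_right h3 (by linarith)

lemma qq_exp (h : Env v) (N : ℕ) (x : ℝ) (hx : 0 < x) (hN : 2 ≤ (N : ℝ) * x) (n : ℕ)
    (hn : -Real.log x ≤ n * (v N / 2)) : qq v h n ≤ x := by
  have hv0 := h.nonneg N
  have hv1 : v N ≤ 1 := by rw [← h.zero]; exact h.anti (Nat.zero_le N)
  refine (qq_bound h N x hN n).trans (max_le le_rfl ?_)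
  calc (1 - v N / 2) ^ n ≤ (Real.exp (-(v N / 2))) ^ n := by
        apply pow_le_pow_left₀ (by linarith)
        have := Real.add_one_le_exp (-(v N / 2))
        linarith
    _ = Real.exp (-(n * (v N / 2))) := by rw [← Real.exp_nat_mul]; ring_nf
    _ ≤ Real.exp (Real.log x) := Real.exp_le_exp.2 (by linarith)
    _ = x := Real.exp_log hx

/-- polynomial lower bound for the law of the size -/
lemma size_lower (h : Env v) (n : ℕ) (hn : 1 ≤ n) :
    ENNReal.ofReal (nu v 0 / (2 * (n : ℝ) ^ 4)) ≤ gwLaw (off v h) (sizeEvent n) := by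
  rw [law_size]
  have h0 := h.nu_pos 0
  rcases Nat.lt_or_ge n 2 with h2 | h2
  · have : n = 1 := by omega
    subst this
    have e : Z (off v h) 1 1 = off v h 0 := by
      rw [show (1 : ℕ) = 0 + 1 from rfl, Z_succ, tsum_eq_single 0]
      · simp [Z_zero_zero]
      · intro j hj
        rw [Z_eq_zero _ (by omega), mul_zero]
    rw [e, off_apply]
    apply ENNReal.ofReal_le_ofReal
    simp
    linarith
  · obtain ⟨m, rfl⟩ : ∃ m, n = m + 2 := ⟨n - 2, by omega⟩
    have h3 := Z_lower (off v h) (PMF.tsum_coe _) (off_critical h).1 m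
      (ENNReal.ofReal (1 / (2 * ((m + 2 : ℕ) : ℝ) ^ 3)))
      (fun j hj hj' => off_lower h (m + 2) j hj (by omega))
    rw [off_apply, ← ENNReal.ofReal_mul (by positivity)] at h3
    have hm : (0 : ℝ) < ((m + 1 : ℕ) : ℝ) := by positivity
    have h4 : ENNReal.ofReal (nu v 0 / (2 * ((m + 2 : ℕ) : ℝ) ^ 4)) * ((m + 1 : ℕ) : ℝ≥0∞) ≤
        Z (off v h) 1 (m + 2) * ((m + 1 : ℕ) : ℝ≥0∞) := by
      rw [mul_comm (Z _ _ _)]
      refine le_trans ?_ h3
      rw [← ENNReal.ofReal_natCast, ← ENNReal.ofReal_mul (by positivity)]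
      apply ENNReal.ofReal_le_ofReal
      rw [div_mul_eq_mul_div, div_mul_eq_mul_div, one_mul, div_le_div_iff₀ (by positivity) (by positivity)]
      have : ((m + 1 : ℕ) : ℝ) ≤ ((m + 2 : ℕ) : ℝ) := by exact_mod_cast (by omega)
      calc nu v 0 * ((m + 1 : ℕ) : ℝ) * (2 * ((m + 2 : ℕ) : ℝ) ^ 3)
          ≤ nu v 0 * ((m + 2 : ℕ) : ℝ) * (2 * ((m + 2 : ℕ) : ℝ) ^ 3) := by gcongr
        _ = _ := by ring
    exact (ENNReal.mul_le_mul_iff_left (by positivity) (ENNReal.natCast_ne_top _)).1 h4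

end

/-! #### part Main -/

noncomputable section

section choice

variable (f : ℕ → ℝ)

def gg (n : ℕ) : ℝ := min 1 (1 / Real.sqrt (f n))

lemma gg_nonneg (n : ℕ) : 0 ≤ gg f n := by
  unfold gg
  exact le_min zero_le_one (by positivity)

lemma gg_le_one (n : ℕ) : gg f n ≤ 1 := min_le_left _ _

lemma gg_tendsto (hf : Tendsto f atTop atTop) : Tendsto (gg f) atTop (𝓝 0) := by
  have h1 : Tendsto (fun n => 1 / Real.sqrt (f n)) atTop (𝓝 0) := by
    have := tendsto_inv_atTop_zero.comp (Real.tendsto_sqrt_atTop.comp hf)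
    simpa [one_div, Function.comp_def] using this
  refine squeeze_zero (gg_nonneg f) (fun n => min_le_right _ _) h1

def v2 (N : ℕ) : ℝ := if N = 0 then 1 else ⨆ n : {n : ℕ // N ≤ 2 * n ^ 6}, gg f n.1

lemma bdd (N : ℕ) : BddAbove (Set.range (fun n : {n : ℕ // N ≤ 2 * n ^ 6} => gg f n.1)) :=
  ⟨1, by rintro _ ⟨n, rfl⟩; exact gg_le_one f n.1⟩

instance (N : ℕ) : Nonempty {n : ℕ // N ≤ 2 * n ^ 6} := by
  refine ⟨⟨N, ?_⟩⟩
  have : N ≤ N ^ 6 := Nat.le_self_pow (by norm_num) N
  omega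

lemma v2_le_one (N : ℕ) : v2 f N ≤ 1 := by
  unfold v2
  split_ifs
  · exact le_rfl
  · exact ciSup_le (fun n => gg_le_one f n.1)

lemma v2_nonneg (N : ℕ) : 0 ≤ v2 f N := by
  unfold v2
  split_ifs
  · exact zero_le_one
  · exact Real.iSup_nonneg (fun n => gg_nonneg f n.1)

lemma v2_anti : Antitone (v2 f) := by
  intro N N' h
  rcases Nat.eq_zero_or_pos N with h0 | h0
  · subst h0
    have : v2 f 0 = 1 := by simp [v2]
    rw [this]; exact v2_le_one f N'
  · unfold v2
    rw [if_neg (by omega), if_neg (by omega)]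
    apply ciSup_le
    intro n
    exact le_ciSup (bdd f N) ⟨n.1, h.trans n.2⟩

lemma v2_ge (n : ℕ) (hn : 1 ≤ n) : gg f n ≤ v2 f (2 * n ^ 6) := by
  unfold v2
  have : 0 < n ^ 6 := by positivity
  rw [if_neg (by omega)]
  exact le_ciSup (bdd f (2 * n ^ 6)) ⟨n, le_rfl⟩

lemma v2_tendsto (hf : Tendsto f atTop atTop) : Tendsto (v2 f) atTop (𝓝 0) := by
  rw [Metric.tendsto_atTop]
  intro ε hε
  obtain ⟨n0, hn0⟩ := (Metric.tendsto_atTop.1 (gg_tendsto f hf)) (ε / 2) (by linarith)
  refine ⟨2 * n0 ^ 6 + 1, fun N hN => ?_⟩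
  rw [Real.dist_eq, sub_zero, abs_of_nonneg (v2_nonneg f N)]
  refine lt_of_le_of_lt ?_ (by linarith : ε / 2 < ε)
  unfold v2
  rw [if_neg (by omega)]
  apply ciSup_le
  intro n
  have h1 : n0 ≤ n.1 := by
    by_contra hlt
    push Not at hlt
    have : n.1 ^ 6 ≤ n0 ^ 6 := Nat.pow_le_pow_left hlt.le 6
    have := n.2
    omega
  have := hn0 n.1 h1
  rw [Real.dist_eq, sub_zero, abs_of_nonneg (gg_nonneg f n.1)] at this
  exact this.le

def vv (N : ℕ) : ℝ := (1 / ((N : ℝ) + 1) + v2 f N) / 2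

lemma vv_env (hf : Tendsto f atTop atTop) : Env (vv f) where
  zero := by simp [vv, v2]
  anti := by
    intro N N' h
    have h1 := v2_anti f h
    have h2 : 1 / ((N' : ℝ) + 1) ≤ 1 / ((N : ℝ) + 1) := by
      apply one_div_le_one_div_of_le (by positivity)
      have : (N : ℝ) ≤ N' := by exact_mod_cast h
      linarith
    unfold vv
    linarith
  lim := by
    have h1 : Tendsto (fun N : ℕ => 1 / ((N : ℝ) + 1)) atTop (𝓝 0) := tendsto_one_div_add_atTop_nhds_zero_nat
    have h2 : Tendsto (fun N : ℕ => (1 / ((N : ℝ) + 1) + v2 f N) / 2) atTop (𝓝 0) := by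
      simpa using (h1.add (v2_tendsto f hf)).div_const 2
    exact h2
  inc := by
    intro k
    have h1 := v2_anti f (Nat.le_succ k)
    have hk : (0 : ℝ) ≤ k := Nat.cast_nonneg k
    have e : 1 / (2 * ((k : ℝ) + 1) * ((k : ℝ) + 2)) =
        (1 / ((k : ℝ) + 1) - 1 / ((k : ℝ) + 2)) / 2 := by
      field_simp
      ring
    rw [e]
    unfold vv
    push_cast
    have e2 : (k : ℝ) + 1 + 1 = k + 2 := by ring
    rw [e2]
    have : v2 f (k + 1) ≤ v2 f k := h1
    linarith

lemma vv_ge (n : ℕ) (hn : 1 ≤ n) : gg f n / 2 ≤ vv f (2 * n ^ 6) := by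
  have := v2_ge f n hn
  unfold vv
  have h : (0 : ℝ) ≤ 1 / (((2 * n ^ 6 : ℕ) : ℝ) + 1) := by positivity
  linarith

end choice

lemma main_bound {f : ℕ → ℝ} (h : Env (vv f)) (δ : ℝ) (hδ : 0 < δ) (n : ℕ) (hn : 2 ≤ n)
    (h1 : 1 ≤ f n) (h2 : (24 / δ) ^ 2 ≤ f n) :
    condLaw (off (vv f) h) n {ξ | δ < |(height ξ : ℝ) / (f n * Real.log n)|} ≤
      ENNReal.ofReal (2 / nu (vv f) 0 * (1 / (n : ℝ) ^ 2)) := by
  have hn0 : (0 : ℝ) < n := by positivity
  have hn1 : (1 : ℝ) < n := by exact_mod_cast (by omega : 1 < n)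
  have hlog : 0 < Real.log n := Real.log_pos hn1
  have hfl : 0 < f n * Real.log n := by positivity
  set H : ℕ := ⌈δ * (f n * Real.log n)⌉₊ with hH
  have hmeas : MeasurableSet (sizeEvent n) := by
    have := measurableSet_sizeEvent n (fun _ => True)
    simpa using this
  have hp : ∀ x : ℕ, δ < |(x : ℝ) / (f n * Real.log n)| → H ≤ x := by
    intro x hx
    rw [abs_of_nonneg (by positivity), lt_div_iff₀ hfl] at hx
    exact Nat.ceil_le.2 hx.le
  have hl := law_height (off (vv f) h) n (fun x => δ < |(x : ℝ) / (f n * Real.log n)|) H hp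
  have hq : qq (vv f) h H ≤ 1 / (n : ℝ) ^ 6 := by
    apply qq_exp h (2 * n ^ 6) _ (by positivity)
    · push_cast
      rw [mul_assoc, mul_one_div, div_self (by positivity), mul_one]
    · have e1 : -Real.log (1 / (n : ℝ) ^ 6) = 6 * Real.log n := by
        rw [one_div, Real.log_inv, Real.log_pow]; push_cast; ring
      rw [e1]
      have h3 : δ * (f n * Real.log n) ≤ (H : ℝ) := Nat.le_ceil _
      have h4 := vv_ge f n (by omega)
      have h5 : gg f n = 1 / Real.sqrt (f n) := by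
        unfold gg
        apply min_eq_right
        rw [div_le_one (by positivity)]
        exact Real.one_le_sqrt.2 h1
      have h6 : f n * (1 / Real.sqrt (f n)) = Real.sqrt (f n) := by
        have : 0 < Real.sqrt (f n) := Real.sqrt_pos.2 (by linarith)
        field_simp
        exact (Real.sq_sqrt (by linarith)).symm
      have h7 : 24 / δ ≤ Real.sqrt (f n) := by
        apply Real.le_sqrt_of_sq_le h2
      have h8 : 24 ≤ δ * Real.sqrt (f n) := by
        rw [div_le_iff₀ hδ] at h7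
        linarith
      calc 6 * Real.log n ≤ (δ * Real.sqrt (f n)) * Real.log n / 4 := by nlinarith
        _ = δ * (f n * (1 / Real.sqrt (f n))) * Real.log n / 4 := by rw [h6]
        _ = (δ * (f n * Real.log n)) * ((1 / Real.sqrt (f n)) / 4) := by ring
        _ ≤ (H : ℝ) * (vv f (2 * n ^ 6) / 2) := by
            apply mul_le_mul h3 _ (by positivity) (Nat.cast_nonneg H)
            rw [← h5]; linarith
  have hup : gwLaw (off (vv f) h) (sizeEvent n ∩
      {ξ | δ < |(height ξ : ℝ) / (f n * Real.log n)|}) ≤ ENNReal.ofReal (1 / (n : ℝ) ^ 6) := by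
    have hQt : Q (off (vv f) h) H ≠ ⊤ :=
      ne_top_of_le_ne_top ENNReal.one_ne_top (Q_le_one (off (vv f) h) H)
    have h9 : gwLaw (off (vv f) h) (sizeEvent n ∩
        {ξ | δ < |(height ξ : ℝ) / (f n * Real.log n)|}) ≤ 1 - Q (off (vv f) h) H :=
      ENNReal.le_sub_of_add_le_right hQt hl
    refine h9.trans ?_
    rw [← ENNReal.ofReal_toReal hQt, ← ENNReal.ofReal_one, ← ENNReal.ofReal_sub _ ENNReal.toReal_nonneg]
    exact ENNReal.ofReal_le_ofReal hq
  have hlow := size_lower h n (by omega)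
  have hnu := h.nu_pos 0
  rw [condLaw, cond_apply hmeas]
  calc (gwLaw (off (vv f) h) (sizeEvent n))⁻¹ * gwLaw (off (vv f) h) (sizeEvent n ∩
        {ξ | δ < |(height ξ : ℝ) / (f n * Real.log n)|})
      ≤ (ENNReal.ofReal (nu (vv f) 0 / (2 * (n : ℝ) ^ 4)))⁻¹ * ENNReal.ofReal (1 / (n : ℝ) ^ 6) := by
        gcongr
    _ = ENNReal.ofReal (2 / nu (vv f) 0 * (1 / (n : ℝ) ^ 2)) := by
        rw [← ENNReal.ofReal_inv_of_pos (by positivity), ← ENNReal.ofReal_mul (by positivity)]
        congr 1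
        field_simp

theorem negligible {f : ℕ → ℝ} (hf : Tendsto f atTop atTop) (h : Env (vv f)) :
    HeightNegligible (off (vv f) h) f := by
  intro δ hδ
  have hlim : Tendsto (fun n : ℕ => ENNReal.ofReal (2 / nu (vv f) 0 * (1 / (n : ℝ) ^ 2)))
      atTop (𝓝 0) := by
    rw [← ENNReal.ofReal_zero]
    apply ENNReal.tendsto_ofReal
    have h1 : Tendsto (fun n : ℕ => 1 / (n : ℝ) ^ 2) atTop (𝓝 0) := by
      have := (tendsto_pow_atTop (α := ℝ) (n := 2) (by norm_num)).comp
        (tendsto_natCast_atTop_atTop (R := ℝ))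
      have h2 := tendsto_inv_atTop_zero.comp this
      simpa [one_div, Function.comp_def] using h2
    simpa using h1.const_mul (2 / nu (vv f) 0)
  refine tendsto_of_tendsto_of_tendsto_of_le_of_le' tendsto_const_nhds hlim
    (Eventually.of_forall (fun _ => zero_le)) ?_
  filter_upwards [eventually_ge_atTop 2, hf.eventually_ge_atTop 1,
    hf.eventually_ge_atTop ((24 / δ) ^ 2)] with n h1 h2 h3
  exact main_bound h δ hδ n h1 h2 h3

theorem tight_of_negligible {μ : PMF ℕ} {f : ℕ → ℝ} (hneg : HeightNegligible μ f) :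
    HeightTight μ f := by
  intro ε hε
  have h1 := hneg 1 one_pos
  obtain ⟨n0, hn0⟩ := eventually_atTop.1 (h1.eventually (gt_mem_nhds hε))
  set B : ℝ := ∑ n ∈ Finset.range n0, |(n : ℝ) / (f n * Real.log n)| with hB
  refine ⟨max 1 B, fun n hn hpos => ?_⟩
  rcases Nat.lt_or_ge n n0 with hlt | hge
  · have hmeas : MeasurableSet (sizeEvent n) := by
      have := measurableSet_sizeEvent n (fun _ => True)
      simpa using this
    have hempty : sizeEvent n ∩ {ξ | max 1 B < |(height ξ : ℝ) / (f n * Real.log n)|} = ∅ := by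
      rw [Set.eq_empty_iff_forall_notMem]
      rintro ξ ⟨hs, hx⟩
      have h2 := height_lt hs
      have h3 : |(height ξ : ℝ) / (f n * Real.log n)| ≤ |(n : ℝ) / (f n * Real.log n)| := by
        rw [abs_div, abs_div]
        apply div_le_div_of_nonneg_right _ (abs_nonneg _)
        rw [Nat.abs_cast, Nat.abs_cast]
        exact_mod_cast h2.le
      have h4 : |(n : ℝ) / (f n * Real.log n)| ≤ B :=
        Finset.single_le_sum (f := fun n : ℕ => |(n : ℝ) / (f n * Real.log n)|)
          (fun _ _ => abs_nonneg _) (Finset.mem_range.2 hlt)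
      have h5 : max 1 B < |(height ξ : ℝ) / (f n * Real.log n)| := hx
      have := le_max_right 1 B
      linarith
    rw [condLaw, cond_apply hmeas, hempty]
    simpa using hε
  · refine lt_of_le_of_lt (measure_mono ?_) (hn0 n hge)
    intro ξ hx
    exact lt_of_le_of_lt (le_max_left 1 B) hx

/-- **Answer to Q1: every function works.** For every `f` with positive values and `f n → ∞` there
is a critical offspring law `μ` for which `T_n` is defined for all `n ≥ 1` and
`H(T_n) / (f n * log n)` is tight; it even tends to zero in probability. -/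
theorem result :
    ∀ f : ℕ → ℝ, (∀ n : ℕ, 1 ≤ n → 0 < f n) → Tendsto f atTop atTop →
      ∃ μ : PMF ℕ, IsCritical μ ∧ (∀ n : ℕ, 1 ≤ n → 0 < gwLaw μ (sizeEvent n)) ∧
        HeightTight μ f ∧ HeightNegligible μ f := by
  intro f _ hf
  have h := vv_env f hf
  refine ⟨off (vv f) h, off_critical h, ?_, tight_of_negligible (negligible hf h),
    negligible hf h⟩
  intro n hn
  refine lt_of_lt_of_le ?_ (size_lower h n hn)
  rw [ENNReal.ofReal_pos]
  have := h.nu_pos 0
  positivity

end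

end Pool.Agent.Results.MP_d1698a_pr.HeightScales
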